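import Pool.Agent.H18.CP.Defs
import Pool.Agent.H18.UP.STP

/-!
# [H18 CP BrC] THEOREM CP: branches on balls off the postcritical set

PROOF. Copy the private theorems `stp_iter`, `stp_disc`, `stp_branch` of H18/UP/STP (private there): `stp_branch` gives the branch if no point `(rat a b)^[k] w`, `w ∈ CC (rat a b) m (coe '' ball q s) z`, `k < m`, is critical. For such `w`: `(rat a b)^[m] w = u ∈ ball q s ⊆ NJ J δ0` (`CC` is contained in the preimage, see `cc_sub` or the definition of `CC` in H44/RC). If `c' = (rat a b)^[k] w` is critical: by `Geo.fc` (its second alternative with `n = m - k > 0` and `u ∈ NJ` is impossible) `c' = z' ∈ J`, `Cr a b z'`, and `(rat a b)^[m - k] z' = u`: `g_pre` gives `z' ∈ (pre a b)^[m - k] {u}`, so `u = gg^[m-k] z' ∈ PJ a b J` (`p_cr`, H18/UP/BAS): contradiction to `hP`.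
-/

set_option autoImplicit false

open Filter Topology Polynomial Metric Set MeasureTheory

namespace Pool.Agent.H18.CP

open Pool.Agent.H44.Fatou (rat rat_continuous)
open Pool.Agent.H80.AJ (Br KK one_le_KK KK_pos distort distort_lip deriv_ne univ_cover)
open Pool.Agent.H32.BT (IsCrit)
open Pool.Agent.H61.TT Pool.Agent.H57.CP Pool.Agent.H3.NC Pool.Agent.H18.UP

variable {d : ℕ} {a b : Polynomial ℂ} {J : Set ℂ} {δ0 : ℝ}

/-- an injective iterate near a point -/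
private theorem stp_iter {f : OnePoint ℂ → OnePoint ℂ} (hf : Continuous f) (n : ℕ) {w : OnePoint ℂ}
    (h : ∀ k < n, ∃ U ∈ 𝓝 (f^[k] w), InjOn f U) : ∃ U ∈ 𝓝 w, InjOn f^[n] U := by
  induction n with
  | zero => exact ⟨univ, univ_mem, fun a _ b _ hab => hab⟩
  | succ n ih =>
    obtain ⟨U, hU, hUi⟩ := ih fun k hk => h k (by omega)
    obtain ⟨V, hV, hVi⟩ := h n (Nat.lt_succ_self n)
    refine ⟨U ∩ f^[n] ⁻¹' V, inter_mem hU ((hf.iterate n).continuousAt.preimage_mem_nhds hV), ?_⟩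
    intro a ha b hb hab
    rw [Function.iterate_succ_apply', Function.iterate_succ_apply'] at hab
    exact hUi ha.1 hb.1 (hVi ha.2 hb.2 hab)

/-- the disc in the sphere -/
private theorem stp_disc (q : ℂ) {s : ℝ} (hs : 0 < s) :
    IsOpen ((fun z : ℂ => (z : OnePoint ℂ)) '' ball q s) ∧
    SimplyConnectedSpace ((fun z : ℂ => (z : OnePoint ℂ)) '' ball q s) ∧
    LocallyPathConnectedSpace ((fun z : ℂ => (z : OnePoint ℂ)) '' ball q s) := by
  have he : Topology.IsOpenEmbedding (fun z : ℂ => (z : OnePoint ℂ)) := OnePoint.isOpenEmbedding_coe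
  have hctr : ContractibleSpace (ball q s) := (convex_ball q s).contractibleSpace ⟨q, mem_ball_self hs⟩
  have e : ball q s ≃ₜ (fun z : ℂ => (z : OnePoint ℂ)) '' ball q s := he.toIsEmbedding.homeomorphImage _
  refine ⟨he.isOpenMap _ isOpen_ball, ?_, ?_⟩
  · have h1 : ContractibleSpace ((fun z : ℂ => (z : OnePoint ℂ)) '' ball q s) := e.symm.contractibleSpace
    infer_instance
  · have h1 : Topology.IsOpenEmbedding (fun y : (fun z : ℂ => (z : OnePoint ℂ)) '' ball q s => ((e.symm y : ball q s) : ℂ)) :=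
      isOpen_ball.isOpenEmbedding_subtypeVal.comp e.symm.isOpenEmbedding
    exact h1.locallyPathConnectedSpace

/-- the branch in the case without critical points -/
private theorem stp_branch (h : Geo d a b J δ0) {m : ℕ} {q z : ℂ} {s : ℝ} (hs : 0 < s) (hq : ball q s ⊆ NJ J δ0)
    {x0 : ℂ} (hx0 : x0 ∈ ball q s) (hz : (rat a b)^[m] (z : OnePoint ℂ) = (x0 : OnePoint ℂ))
    (hc : ∀ w ∈ Pool.Agent.H44.RC.CC (rat a b) m ((fun z : ℂ => (z : OnePoint ℂ)) '' ball q s) (z : OnePoint ℂ),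
      ∀ k < m, ¬ IsCrit (rat a b) ((rat a b)^[k] w)) :
    ∃ φ : ℂ → ℂ, Br (rat a b) m q s (φ q) φ ∧ φ x0 = z := by
  classical
  obtain ⟨B, hB⟩ : ∃ B : Set (OnePoint ℂ), B = (fun z : ℂ => (z : OnePoint ℂ)) '' ball q s := ⟨_, rfl⟩
  obtain ⟨hBo, hB1, hB2⟩ := stp_disc q hs
  rw [← hB] at hc hBo hB1 hB2
  have hdeg : 1 ≤ max a.natDegree b.natDegree := by
    have := h.rt.hd
    rw [h.rt.deg]
    omega
  have hf : Continuous (rat a b) := rat_continuous h.rt.cop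
  have ho : IsOpenMap (rat a b)^[m] :=
    Pool.Agent.H91.Fatou.open_iterate (Pool.Agent.H32.BT.rat_open h.rt.cop hdeg) m
  have hzB : (rat a b)^[m] (z : OnePoint ℂ) ∈ B := by
    rw [hz, hB]
    exact ⟨x0, hx0, rfl⟩
  obtain ⟨W, hW⟩ : ∃ W, W = Pool.Agent.H44.RC.CC (rat a b) m B (z : OnePoint ℂ) := ⟨_, rfl⟩
  rw [← hW] at hc
  have hbij : BijOn (rat a b)^[m] W B := by
    rw [hW]
    refine uni_gen hf m ho (fun y => Pool.Agent.H32.BT.iter_fiber_finite h.rt.cop hdeg m y) hBo hB1 hB2 hzB ?_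
    intro w hw
    refine stp_iter hf m fun k hk => ?_
    rw [← hW] at hw
    exact not_not.1 (hc w hw k hk)
  have hWo : IsOpen W := by
    rw [hW]
    exact Pool.Agent.H44.RC.cc_open hf m hBo _
  have hzW : (z : OnePoint ℂ) ∈ W := by
    rw [hW]
    exact Pool.Agent.H44.RC.cc_mem hzB
  have hex : ∀ u : ℂ, ∃ x : ℂ, u ∈ ball q s → (x : OnePoint ℂ) ∈ W ∧ (rat a b)^[m] (x : OnePoint ℂ) = (u : OnePoint ℂ) := by
    intro u
    by_cases hu : u ∈ ball q s
    · obtain ⟨w, hw, hwu⟩ := hbij.surjOn (show (u : OnePoint ℂ) ∈ B by rw [hB]; exact ⟨u, hu, rfl⟩)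
      obtain ⟨x, hx⟩ := g_fin h (hq hu) hwu 0 (Nat.zero_le m)
      rw [Function.iterate_zero, id] at hx
      exact ⟨x, fun _ => ⟨hx ▸ hw, hx ▸ hwu⟩⟩
    · exact ⟨0, fun h0 => absurd h0 hu⟩
  choose φ hφ using hex
  have hφx : φ x0 = z := by
    obtain ⟨h1, h2⟩ := hφ x0 hx0
    exact OnePoint.coe_injective (hbij.injOn h1 hzW (h2.trans hz.symm))
  refine ⟨φ, ⟨?_, rfl, fun u hu => (hφ u hu).2⟩, hφx⟩
  intro u hu
  obtain ⟨h1, h2⟩ := hφ u hu
  have h3 : φ u ∈ (pre a b)^[m] {u} := (g_pre h (hq hu)).1 h2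
  -- the derivative
  have hne : tD a b m (φ u) ≠ 0 := by
    unfold tD
    refine Finset.prod_ne_zero_iff.2 fun i hi => ?_
    have hi' := Finset.mem_range.1 hi
    have hbi := (mem_pre.1 h3).1 i hi'
    have h4 : φ u ∈ (pre a b)^[i] univ := mem_pre.2 ⟨fun j hj => (mem_pre.1 h3).1 j (by omega), mem_univ _⟩
    have h5 := hc _ h1 i hi'
    rw [g_rat h h4, crit_iff h hbi] at h5
    exact div_ne_zero h5 (pow_ne_zero 2 hbi)
  -- continuity
  have hcont : ContinuousAt φ u := by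
    rw [Metric.continuousAt_iff']
    intro ε hε
    have hVo : IsOpen ((fun z : ℂ => (z : OnePoint ℂ)) '' ball (φ u) ε ∩ W) :=
      (OnePoint.isOpenEmbedding_coe.isOpenMap _ isOpen_ball).inter hWo
    have hI : IsOpen ((rat a b)^[m] '' ((fun z : ℂ => (z : OnePoint ℂ)) '' ball (φ u) ε ∩ W)) := ho _ hVo
    have hu1 : u ∈ (fun z : ℂ => (z : OnePoint ℂ)) ⁻¹' ((rat a b)^[m] '' ((fun z : ℂ => (z : OnePoint ℂ)) '' ball (φ u) ε ∩ W)) :=
      ⟨(φ u : OnePoint ℂ), ⟨⟨φ u, mem_ball_self hε, rfl⟩, h1⟩, h2⟩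
    have hI2 := hI.preimage OnePoint.continuous_coe
    filter_upwards [hI2.mem_nhds hu1, isOpen_ball.mem_nhds hu] with u' hu' hu2
    obtain ⟨w, ⟨⟨y, hy, hyw⟩, hw⟩, hwu⟩ := hu'
    obtain ⟨h4, h5⟩ := hφ u' hu2
    have hyw' : (y : OnePoint ℂ) = w := hyw
    have h6 : (φ u' : OnePoint ℂ) = (y : OnePoint ℂ) := by
      rw [hyw']
      exact hbij.injOn h4 hw (h5.trans hwu.symm)
    rw [OnePoint.coe_injective h6]
    exact hy
  have hinv : ∀ᶠ v in 𝓝 u, (gg a b)^[m] (φ v) = v := by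
    filter_upwards [isOpen_ball.mem_nhds hu] with v hv
    exact (mem_pre.1 ((g_pre h (hq hv)).1 (hφ v hv).2)).2
  exact (HasDerivAt.of_local_left_inverse hcont (g_diff h3) hne hinv).differentiableAt.differentiableWithinAt

theorem br_cov (h : Geo d a b J δ0) {q : ℂ} {s : ℝ} (hs : 0 < s) (hq : ball q s ⊆ NJ J δ0)
    (hP : Disjoint (ball q s) (PJ a b J)) {m : ℕ} {z x0 : ℂ} (hx0 : x0 ∈ ball q s)
    (hz : (rat a b)^[m] (z : OnePoint ℂ) = (x0 : OnePoint ℂ)) :
    ∃ φ : ℂ → ℂ, Br (rat a b) m q s (φ q) φ ∧ φ x0 = z := by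
  refine stp_branch h hs hq hx0 hz fun w hw k hk hcr => ?_
  obtain ⟨u, hu, hu2⟩ := Pool.Agent.H44.RC.cc_sub hw
  have hu3 : (rat a b)^[m] w = (u : OnePoint ℂ) := hu2.symm
  have h1 : (rat a b)^[m - k] ((rat a b)^[k] w) = (u : OnePoint ℂ) := by
    rw [← Function.iterate_add_apply, Nat.sub_add_cancel hk.le, hu3]
  rcases h.fc _ hcr with ⟨c, hc, hcw, hcc⟩ | hfar
  · rw [hcw] at h1
    have h2 : c ∈ (pre a b)^[m - k] {u} := (g_pre h (hq hu)).1 h1
    have h3 : (gg a b)^[m - k] c = u := (mem_pre.1 h2).2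
    have h4 : u ∈ PJ a b J := by
      rw [← h3]
      exact p_cr hc hcc (by omega) (pre_mono (subset_univ _) h2)
    exact (Set.disjoint_left.1 hP) hu h4
  · exact hfar (m - k) (by omega) u (hq hu) h1

end Pool.Agent.H18.CP
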