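import Pool.Agent.H18.CP.Kin
import Pool.Agent.H18.UP.SM2
import Pool.Agent.H61.TT.Area

/-!
# [H18 CP Cmp] THEOREM CP: comparison of the kernel on the images of a ball and of a subset of positive area

PROOF. Let `a = ‖deriv φ c0‖ > 0` (`deriv_ne`), `K = KK`: on `ball c0 s` (`s ≤ ρ / 2`) `a / K ≤ ‖deriv φ‖ ≤ K a` (`distort`), `φ '' ball c0 s ⊆ ball y (K a s)`, `y = φ c0` (`distort_lip`), so `volume (φ '' ball c0 s) ≤ π (K a s)^2` and `volume (φ '' D) = ∫_D ‖deriv φ‖^2 ≥ (a / K)^2 volume D` (`lintegral_image_eq_lintegral_abs_det_fderiv_mul` or the area lemma for injective holomorphic maps of the library, e.g. in H43/UP/Kob, H43/UP/Int1 or H61/TT/Area).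
Let `r = K a s`. Case `2 r ≤ ‖y - p‖`: for `w ∈ φ '' ball c0 s`: `‖y - p‖ / 2 ≤ ‖w - p‖ ≤ 2 ‖y - p‖`, so `kt` is between `(2 ‖y - p‖)^(-t)` and `(‖y - p‖ / 2)^(-t)`; ratio of the integrals at most `4^t π r^2 / ((a / K)^2 volume D)` `= 4^t π K^4 s^2 / volume D`.
Case `‖y - p‖ < 2 r`: `φ '' ball c0 s ⊆ ball p (3 r)`: the left integral is at most `C_t (3 r)^(2 - t)` (`kin_t`), the right integral at least `volume (φ '' D) (3 r)^(-t)`; ratio at most `9 C_t r^2 / ((a / K)^2 volume D) = 9 C_t K^4 s^2 / volume D`.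
(`volume D < ∞` as `D ⊆ ball c0 s`.)
-/

set_option autoImplicit false

open Filter Topology Polynomial Metric Set MeasureTheory

namespace Pool.Agent.H18.CP

open Pool.Agent.H80.AJ (Br KK one_le_KK KK_pos distort distort_lip deriv_ne univ_cover)

private theorem cmp_vol {φ : ℂ → ℂ} {D U : Set ℂ} (hU : IsOpen U) (hDU : D ⊆ U) (hDm : MeasurableSet D)
    (hφ : DifferentiableOn ℂ φ U) (hi : InjOn φ U) {m : ℝ} (hm0 : 0 ≤ m) (hm : ∀ w ∈ D, m ≤ ‖deriv φ w‖) :
    ENNReal.ofReal (m ^ 2) * volume D ≤ volume (φ '' D) := by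
  have hd : ∀ w ∈ D, HasDerivAt φ (deriv φ w) w := fun w hw =>
    (hφ.differentiableAt (hU.mem_nhds (hDU hw))).hasDerivAt
  have h1 := lintegral_abs_det_fderiv_eq_addHaar_image volume hDm
    (f' := fun y => (ContinuousLinearMap.smulRight (1 : ℂ →L[ℂ] ℂ) (deriv φ y)).restrictScalars ℝ)
    (fun w hw => ((hd w hw).hasFDerivAt.restrictScalars ℝ).hasFDerivWithinAt) (hi.mono hDU)
  rw [← h1, ← setLIntegral_const]
  refine setLIntegral_mono' hDm fun w hw => ?_
  rw [Pool.Agent.H61.TT.abs_det_smulRight]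
  refine ENNReal.ofReal_le_ofReal ?_
  have := hm w hw
  gcongr

theorem cmp_kt {c0 : ℂ} {s ρ : ℝ} (hs : 0 < s) (hρ : 2 * s ≤ ρ) {D : Set ℂ} (hD : D ⊆ ball c0 s) (hDm : MeasurableSet D)
    (hD0 : volume D ≠ 0) {t : ℝ} (h0 : 0 < t) (h2 : t < 2) : ∃ C : ENNReal, C ≠ ⊤ ∧ ∀ φ : ℂ → ℂ,
    DifferentiableOn ℂ φ (ball c0 ρ) → InjOn φ (ball c0 ρ) → ∀ p : ℂ,
    ∫⁻ w in φ '' ball c0 s, kt t p w ≤ C * ∫⁻ w in φ '' D, kt t p w := by
  obtain ⟨Ct, hCt0, hCt⟩ := kin_t h0 h2
  have hK1 := one_le_KK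
  have hK0 := KK_pos
  have hv1 : volume D ≠ ⊤ := by
    refine ne_top_of_le_ne_top ?_ (measure_mono hD)
    rw [Complex.volume_ball]
    exact ENNReal.mul_ne_top (ENNReal.pow_ne_top ENNReal.ofReal_ne_top) ENNReal.coe_ne_top
  obtain ⟨M, hM⟩ : ∃ M : ℝ, M = (4 ^ t * Real.pi + 9 * Ct) * (KK ^ 4 * s ^ 2) := ⟨_, rfl⟩
  have h4t : (0 : ℝ) < 4 ^ t := Real.rpow_pos_of_pos (by norm_num) t
  have hpi := Real.pi_pos
  have hM0 : 0 ≤ M := by rw [hM]; positivity
  refine ⟨ENNReal.ofReal M / volume D, ENNReal.div_ne_top ENNReal.ofReal_ne_top hD0, fun φ hφ hi p => ?_⟩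
  have hρ0 : 0 < ρ := by linarith
  have hsub : ball c0 s ⊆ closedBall c0 (ρ / 2) := fun w hw => by
    rw [mem_ball] at hw
    rw [mem_closedBall]
    linarith
  have hsubR : ball c0 s ⊆ ball c0 ρ := ball_subset_ball (by linarith)
  have hc : c0 ∈ closedBall c0 (ρ / 2) := mem_closedBall_self (by positivity)
  have ha : 0 < ‖deriv φ c0‖ := deriv_ne hρ0 hφ hi hc
  obtain ⟨α, hα⟩ : ∃ α : ℝ, α = ‖deriv φ c0‖ := ⟨_, rfl⟩
  rw [← hα] at ha
  obtain ⟨m, hm⟩ : ∃ m : ℝ, m = α / KK := ⟨_, rfl⟩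
  have hm0 : 0 < m := by rw [hm]; positivity
  have hmα : α = KK * m := by rw [hm]; field_simp
  obtain ⟨r, hr⟩ : ∃ r : ℝ, r = KK * α * s := ⟨_, rfl⟩
  have hr0 : 0 < r := by rw [hr]; positivity
  have hr2 : r ^ 2 = KK ^ 4 * s ^ 2 * m ^ 2 := by
    rw [hr, hmα]
    ring
  have hV : φ '' ball c0 s ⊆ ball (φ c0) r := by
    rintro _ ⟨w, hw, rfl⟩
    rw [mem_ball, dist_eq_norm]
    have h3 := distort_lip hρ0 hφ hi (hsub hw) hc hc
    rw [← hα] at h3
    rw [mem_ball, dist_eq_norm] at hw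
    refine h3.trans_lt ?_
    rw [hr]
    exact mul_lt_mul_of_pos_left hw (by positivity)
  have hE : ENNReal.ofReal (m ^ 2) * volume D ≤ volume (φ '' D) := by
    refine cmp_vol isOpen_ball (hD.trans hsubR) hDm hφ hi hm0.le fun w hw => ?_
    have h3 := distort hρ0 hφ hi hc (hsub (hD hw))
    rw [← hα] at h3
    rw [hm, div_le_iff₀ hK0]
    linarith
  have hcont : ContinuousOn φ D := hφ.continuousOn.mono (hD.trans hsubR)
  have hEm : MeasurableSet (φ '' D) := hDm.image_of_continuousOn_injOn hcont (hi.mono (hD.trans hsubR))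
  have hEV : φ '' D ⊆ φ '' ball c0 s := image_mono hD
  have key : ∃ κ : ENNReal, ∫⁻ w in φ '' ball c0 s, kt t p w ≤ κ * ENNReal.ofReal (M * m ^ 2) ∧
      κ * volume (φ '' D) ≤ ∫⁻ w in φ '' D, kt t p w := by
    rcases le_or_gt (2 * r) ‖φ c0 - p‖ with hc1 | hc1
    · obtain ⟨δ, hδ⟩ : ∃ δ : ℝ, δ = ‖φ c0 - p‖ := ⟨_, rfl⟩
      rw [← hδ] at hc1
      have hδ0 : 0 < δ := by linarith
      have hlo : ∀ w ∈ ball (φ c0) r, δ / 2 ≤ ‖w - p‖ := by
        intro w hw
        rw [mem_ball, dist_eq_norm] at hw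
        have h3 : ‖φ c0 - p‖ ≤ ‖w - p‖ + ‖w - φ c0‖ := by
          have h4 := norm_sub_le (w - p) (w - φ c0)
          have h5 : (w - p) - (w - φ c0) = φ c0 - p := by ring
          rwa [h5] at h4
        rw [← hδ] at h3
        linarith
      have hhi : ∀ w ∈ ball (φ c0) r, ‖w - p‖ ≤ 2 * δ := by
        intro w hw
        rw [mem_ball, dist_eq_norm] at hw
        have h3 : ‖w - p‖ ≤ ‖w - φ c0‖ + ‖φ c0 - p‖ := by
          have h4 := norm_add_le (w - φ c0) (φ c0 - p)
          have h5 : (w - φ c0) + (φ c0 - p) = w - p := by ring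
          rwa [h5] at h4
        rw [← hδ] at h3
        linarith
      refine ⟨ENNReal.ofReal ((2 * δ) ^ (-t)), ?_, ?_⟩
      · have e1 : (δ / 2) ^ (-t) = (2 * δ) ^ (-t) * 4 ^ t := by
          have h3 : δ / 2 = (2 * δ) / 4 := by ring
          rw [h3, Real.div_rpow (by positivity) (by norm_num), Real.rpow_neg (by norm_num : (0 : ℝ) ≤ 4),
            div_inv_eq_mul]
        calc ∫⁻ w in φ '' ball c0 s, kt t p w ≤ ∫⁻ w in ball (φ c0) r, kt t p w := lintegral_mono_set hV
          _ ≤ ∫⁻ w in ball (φ c0) r, ENNReal.ofReal ((δ / 2) ^ (-t)) := by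
            refine setLIntegral_mono' measurableSet_ball fun w hw => ?_
            unfold kt
            exact ENNReal.ofReal_le_ofReal (Real.rpow_le_rpow_of_nonpos (by positivity) (hlo w hw) (by linarith))
          _ = ENNReal.ofReal ((2 * δ) ^ (-t)) * ENNReal.ofReal (4 ^ t * (r ^ 2 * Real.pi)) := by
            rw [setLIntegral_const, Complex.volume_ball, e1, ENNReal.ofReal_mul (by positivity), mul_assoc,
              ENNReal.ofReal_mul h4t.le, ENNReal.ofReal_mul (by positivity), ENNReal.ofReal_pow hr0.le]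
            congr 3
            exact (ENNReal.ofReal_coe_nnreal (p := NNReal.pi)).symm
          _ ≤ ENNReal.ofReal ((2 * δ) ^ (-t)) * ENNReal.ofReal (M * m ^ 2) := by
            refine mul_le_mul_right (ENNReal.ofReal_le_ofReal ?_) _
            rw [hM, hr2]
            have h3 : 0 ≤ 9 * Ct * (KK ^ 4 * s ^ 2) * m ^ 2 := by positivity
            nlinarith
      · rw [← setLIntegral_const]
        refine setLIntegral_mono' hEm fun w hw => ?_
        have hwb := hV (hEV hw)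
        unfold kt
        have h3 := hlo w hwb
        exact ENNReal.ofReal_le_ofReal (Real.rpow_le_rpow_of_nonpos (by linarith) (hhi w hwb) (by linarith))
    · have hV3 : φ '' ball c0 s ⊆ ball p (3 * r) := by
        intro w hw
        have hw1 := hV hw
        rw [mem_ball, dist_eq_norm] at hw1 ⊢
        have h4 := norm_add_le (w - φ c0) (φ c0 - p)
        have h5 : (w - φ c0) + (φ c0 - p) = w - p := by ring
        rw [h5] at h4
        linarith
      refine ⟨ENNReal.ofReal ((3 * r) ^ (-t)), ?_, ?_⟩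
      · calc ∫⁻ w in φ '' ball c0 s, kt t p w ≤ ∫⁻ w in ball p (3 * r), kt t p w := lintegral_mono_set hV3
          _ ≤ ENNReal.ofReal (Ct * (3 * r) ^ (2 - t)) := hCt p (3 * r) (by positivity)
          _ = ENNReal.ofReal ((3 * r) ^ (-t)) * ENNReal.ofReal (9 * Ct * r ^ 2) := by
            rw [← ENNReal.ofReal_mul (by positivity)]
            congr 1
            have h3 : (3 * r) ^ (2 - t) = (3 * r) ^ 2 * (3 * r) ^ (-t) := by
              rw [sub_eq_add_neg, Real.rpow_add (by positivity), Real.rpow_two]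
            rw [h3]
            ring
          _ ≤ ENNReal.ofReal ((3 * r) ^ (-t)) * ENNReal.ofReal (M * m ^ 2) := by
            refine mul_le_mul_right (ENNReal.ofReal_le_ofReal ?_) _
            rw [hM, hr2]
            have h3 : 0 ≤ 4 ^ t * Real.pi * (KK ^ 4 * s ^ 2) * m ^ 2 := by positivity
            nlinarith
      · have h3 : volume (φ '' D) = volume (φ '' D \ {p}) := by
          refine (measure_sdiff_null ?_).symm
          exact measure_singleton p
        rw [h3, ← setLIntegral_const]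
        calc ∫⁻ _ in φ '' D \ {p}, ENNReal.ofReal ((3 * r) ^ (-t)) ≤ ∫⁻ w in φ '' D \ {p}, kt t p w := by
              refine setLIntegral_mono' (hEm.diff (measurableSet_singleton p)) fun w hw => ?_
              have hw1 := hV3 (hEV hw.1)
              rw [mem_ball, dist_eq_norm] at hw1
              have hw2 : 0 < ‖w - p‖ := norm_pos_iff.2 (sub_ne_zero.2 hw.2)
              unfold kt
              exact ENNReal.ofReal_le_ofReal (Real.rpow_le_rpow_of_nonpos hw2 hw1.le (by linarith))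
          _ ≤ ∫⁻ w in φ '' D, kt t p w := lintegral_mono_set sdiff_subset
  obtain ⟨κ, k1, k2⟩ := key
  calc ∫⁻ w in φ '' ball c0 s, kt t p w ≤ κ * ENNReal.ofReal (M * m ^ 2) := k1
    _ = ENNReal.ofReal M / volume D * (κ * (ENNReal.ofReal (m ^ 2) * volume D)) := by
      rw [ENNReal.ofReal_mul hM0]
      calc κ * (ENNReal.ofReal M * ENNReal.ofReal (m ^ 2))
          = κ * (ENNReal.ofReal (m ^ 2) * ((ENNReal.ofReal M / volume D) * volume D)) := by
            rw [ENNReal.div_mul_cancel hD0 hv1]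
            ring
        _ = _ := by ring
    _ ≤ ENNReal.ofReal M / volume D * (κ * volume (φ '' D)) := by gcongr
    _ ≤ ENNReal.ofReal M / volume D * ∫⁻ w in φ '' D, kt t p w := by gcongr

end Pool.Agent.H18.CP
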