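import Pool.Agent.H18.CP.CvA

/-!
# [H18 CP Cov] THEOREM CP: the sum over all preimages

`lev_cov` (module CvA) for every level `i`.
SUM over `i`: `∑_i ∫_(pre^i D) k = ∫ (∑_i 1_(pre^i D)) k` (`lintegral_tsum`), and `∑_i 1_(pre^i D) ≤ n` pointwise, `= 0` outside `Z`: if `z ∈ pre^i D` and `z ∈ pre^j D`, `i + n ≤ j`, then `w = gg^[i] z ∈ D`, `u = gg^[j] z ∈ D`, `(rat a b)^[j - i] w = u`: against `hn`. So all `i` with `z ∈ pre^i D` are in `[i0, i0 + n)`, `i0` the smallest. `pre^i D ⊆ Z` by `Zp`, `DZ`.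
-/

set_option autoImplicit false

open Filter Topology Polynomial Metric Set MeasureTheory

namespace Pool.Agent.H18.CP

open Pool.Agent.H44.Fatou (rat rat_continuous)
open Pool.Agent.H80.AJ (Br KK one_le_KK KK_pos distort distort_lip deriv_ne univ_cover)
open Pool.Agent.H61.TT Pool.Agent.H57.CP Pool.Agent.H3.NC Pool.Agent.H18.UP

variable {d : ℕ} {a b : Polynomial ℂ} {J : Set ℂ} {δ0 : ℝ}

private theorem cov_far (h : Geo d a b J δ0) {c0 : ℂ} {ρ : ℝ} (hN : ball c0 ρ ⊆ NJ J δ0) {D : Set ℂ}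
    (hD : D ⊆ ball c0 ρ) {n : ℕ}
    (hn : ∀ w ∈ D, ∀ m : ℕ, n ≤ m → ∀ u ∈ D, (rat a b)^[m] (w : OnePoint ℂ) ≠ (u : OnePoint ℂ))
    {z : ℂ} {i j : ℕ} (hi : z ∈ (pre a b)^[i] D) (hj : z ∈ (pre a b)^[j] D) : j < i + n := by
  by_contra hlt
  have hij : i ≤ j := by omega
  have h1 := (mem_pre.1 hi).2
  have h2 := (mem_pre.1 hj).2
  refine hn _ h1 (j - i) (by omega) _ h2 ?_
  have h3 := g_rat h hi
  have h4 := g_rat h hj
  rw [← h3, ← h4, ← Function.iterate_add_apply, Nat.sub_add_cancel hij]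

private theorem cov_sub {Z D : Set ℂ} (Zp : pre a b Z ⊆ Z) (DZ : D ⊆ Z) (i : ℕ) : (pre a b)^[i] D ⊆ Z := by
  have h1 : ∀ i : ℕ, (pre a b)^[i] Z ⊆ Z := by
    intro i
    induction i with
    | zero => exact subset_rfl
    | succ i ih =>
      rw [Function.iterate_succ_apply']
      refine subset_trans ?_ Zp
      intro y hy
      exact ⟨hy.1, ih hy.2⟩
  exact (pre_mono DZ).trans (h1 i)

private theorem cov_pt (h : Geo d a b J δ0) {c0 : ℂ} {ρ : ℝ} (hN : ball c0 ρ ⊆ NJ J δ0) {D : Set ℂ}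
    (hD : D ⊆ ball c0 ρ) {n : ℕ}
    (hn : ∀ w ∈ D, ∀ m : ℕ, n ≤ m → ∀ u ∈ D, (rat a b)^[m] (w : OnePoint ℂ) ≠ (u : OnePoint ℂ))
    {Z : Set ℂ} (Zp : pre a b Z ⊆ Z) (DZ : D ⊆ Z) (k : ℂ → ENNReal) (z : ℂ) :
    ∑' i : ℕ, ((pre a b)^[i] D).indicator k z ≤ n * Z.indicator k z := by
  classical
  by_cases hex : ∃ i : ℕ, z ∈ (pre a b)^[i] D
  · have hi0 := Nat.find_spec hex
    have hmin : ∀ j : ℕ, z ∈ (pre a b)^[j] D → Nat.find hex ≤ j := fun j hj => Nat.find_min' hex hj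
    generalize Nat.find hex = i0 at hi0 hmin
    have hzZ : z ∈ Z := cov_sub Zp DZ i0 hi0
    rw [indicator_of_mem hzZ]
    have h1 : ∑' i : ℕ, ((pre a b)^[i] D).indicator k z =
        ∑ i ∈ Finset.Ico i0 (i0 + n), ((pre a b)^[i] D).indicator k z := by
      refine tsum_eq_sum fun i hi => ?_
      refine indicator_of_notMem (fun hz => hi ?_) _
      exact Finset.mem_Ico.2 ⟨hmin i hz, cov_far h hN hD hn hi0 hz⟩
    rw [h1]
    calc ∑ i ∈ Finset.Ico i0 (i0 + n), ((pre a b)^[i] D).indicator k z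
        ≤ ∑ _i ∈ Finset.Ico i0 (i0 + n), k z :=
          Finset.sum_le_sum fun i _ => indicator_le_self' (fun _ _ => bot_le) z
      _ = n * k z := by rw [Finset.sum_const, Nat.card_Ico, Nat.add_sub_cancel_left, nsmul_eq_mul]
  · have h1 : ∑' i : ℕ, ((pre a b)^[i] D).indicator k z = 0 := by
      refine ENNReal.tsum_eq_zero.2 fun i => ?_
      exact indicator_of_notMem (fun hz => hex ⟨i, hz⟩) _
    rw [h1]
    exact bot_le

theorem pot_cov (h : Geo d a b J δ0) {c0 : ℂ} {s ρ : ℝ} (hs : 0 < s) (hρ : s ≤ ρ) (hN : ball c0 ρ ⊆ NJ J δ0)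
    (hP : Disjoint (ball c0 ρ) (PJ a b J)) {D : Set ℂ} (hD : D ⊆ ball c0 s) (hDm : MeasurableSet D) {n : ℕ}
    (hn : ∀ w ∈ D, ∀ m : ℕ, n ≤ m → ∀ u ∈ D, (rat a b)^[m] (w : OnePoint ℂ) ≠ (u : OnePoint ℂ))
    {Z : Set ℂ} (hZ : MeasurableSet Z) (Zp : pre a b Z ⊆ Z) (DZ : D ⊆ Z) {k : ℂ → ENNReal} (hk : Measurable k)
    {C : ENNReal} (hC : ∀ (i : ℕ) (φ : ℂ → ℂ), Br (rat a b) i c0 ρ (φ c0) φ →
      ∫⁻ w in φ '' ball c0 s, k w ≤ C * ∫⁻ w in φ '' D, k w) :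
    ∑' i : ℕ, ∫⁻ w in (pre a b)^[i] (ball c0 s), k w ≤ C * (n * ∫⁻ w in Z, k w) := by
  have hm : ∀ i : ℕ, MeasurableSet ((pre a b)^[i] D) := fun i => pre_ms hDm i
  have h1 : ∀ i : ℕ, ∫⁻ w in (pre a b)^[i] (ball c0 s), k w ≤ C * ∫⁻ w in (pre a b)^[i] D, k w := fun i =>
    lev_cov h hs hρ hN hP hD hDm i (hC i)
  have h2 : ∑' i : ℕ, ∫⁻ w in (pre a b)^[i] D, k w ≤ n * ∫⁻ w in Z, k w := by
    calc ∑' i : ℕ, ∫⁻ w in (pre a b)^[i] D, k w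
        = ∑' i : ℕ, ∫⁻ w, ((pre a b)^[i] D).indicator k w :=
          tsum_congr fun i => (lintegral_indicator (hm i) k).symm
      _ = ∫⁻ w, ∑' i : ℕ, ((pre a b)^[i] D).indicator k w :=
          (lintegral_tsum fun i => (hk.indicator (hm i)).aemeasurable).symm
      _ ≤ ∫⁻ w, n * Z.indicator k w :=
          lintegral_mono fun w => cov_pt h hN (hD.trans (ball_subset_ball hρ)) hn Zp DZ k w
      _ = n * ∫⁻ w in Z, k w := by
          rw [lintegral_const_mul _ (hk.indicator hZ), lintegral_indicator hZ]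
  calc ∑' i : ℕ, ∫⁻ w in (pre a b)^[i] (ball c0 s), k w
      ≤ ∑' i : ℕ, C * ∫⁻ w in (pre a b)^[i] D, k w := ENNReal.tsum_le_tsum h1
    _ = C * ∑' i : ℕ, ∫⁻ w in (pre a b)^[i] D, k w := ENNReal.tsum_mul_left
    _ ≤ C * (n * ∫⁻ w in Z, k w) := mul_le_mul_right h2 C

end Pool.Agent.H18.CP
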