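import Pool.Agent.H18.CP.Defs
import Pool.Agent.H43.UP.TP

/-!
# [H18 CP PfL] THEOREM CP: the push forward and potentials

`pf_set`: `∫_S |pf φ| ≤ ∫_(pre S) |φ|`. PROOF: `E y = ‖φ y‖ₑ * ENNReal.ofReal ((‖dg a b y‖ ^ 2)⁻¹)`, as in `pf_int` (H31/NS/PFI), with `area` (H61/TT/Area) for `T = S`.
`pot_add`, `pot_mul`, `pot_sum`, `pot_mono`: `ENNReal.tsum_add`, `lintegral_add_right'` (measurability of the second summand) etc.
`pot_pf`: `Pot B (pf φ) = ∑_i ∫_(pre^i B) |pf φ| ≤ ∑_i ∫_(pre^(i+1) B) |φ| ≤ Pot B φ` (`Function.iterate_succ_apply'`, shift of a series of nonnegative terms; `pre` of a measurable set is measurable: `measurableSet_pre`).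
-/

set_option autoImplicit false

open Filter Topology Polynomial Metric Set MeasureTheory

namespace Pool.Agent.H18.CP

open Pool.Agent.H44.Fatou (rat rat_continuous)
open Pool.Agent.H61.TT Pool.Agent.H57.CP Pool.Agent.H3.NC Pool.Agent.H18.UP
open Pool.Agent.H78.NS (pf)

variable {d : ℕ} {a b : Polynomial ℂ}

theorem pre_ms {B : Set ℂ} (hB : MeasurableSet B) (i : ℕ) : MeasurableSet ((pre a b)^[i] B) := by
  sorry

theorem pf_set (h : RatD d a b) {φ : ℂ → ℂ} (hφ : Measurable φ) {S : Set ℂ} (hS : MeasurableSet S) :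
    ∫⁻ w in S, ‖pf a b φ w‖ₑ ≤ ∫⁻ w in pre a b S, ‖φ w‖ₑ := by
  sorry

theorem pot_mono {B : Set ℂ} {u v : ℂ → ℂ} (h : ∀ w, ‖u w‖ₑ ≤ ‖v w‖ₑ) : Pot a b B u ≤ Pot a b B v := by
  sorry

theorem pot_congr {B : Set ℂ} (hB : MeasurableSet B) {u v : ℂ → ℂ} (h : ∀ᵐ w : ℂ, ∀ i : ℕ, w ∈ (pre a b)^[i] B → u w = v w) :
    Pot a b B u = Pot a b B v := by
  sorry

theorem pot_add {B : Set ℂ} {u v : ℂ → ℂ} (hv : Measurable v) :
    Pot a b B (fun w => u w + v w) ≤ Pot a b B u + Pot a b B v := by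
  sorry

/-- the same for a second summand measurable on a set containing all preimages of `B` -/
theorem pot_add' {B Z : Set ℂ} (hZ : ∀ i : ℕ, (pre a b)^[i] B ⊆ Z) {u v : ℂ → ℂ}
    (hv : AEStronglyMeasurable v (volume.restrict Z)) :
    Pot a b B (fun w => u w + v w) ≤ Pot a b B u + Pot a b B v := by
  sorry

theorem pot_mul {B : Set ℂ} (c : ℂ) {u : ℂ → ℂ} : Pot a b B (fun w => c * u w) = ‖c‖ₑ * Pot a b B u := by
  sorry

theorem pot_sum {ι : Type} (I : Finset ι) {B Z : Set ℂ} (hZ : ∀ i : ℕ, (pre a b)^[i] B ⊆ Z) {u : ι → ℂ → ℂ}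
    (hu : ∀ i ∈ I, AEStronglyMeasurable (u i) (volume.restrict Z)) :
    Pot a b B (fun w => ∑ i ∈ I, u i w) ≤ ∑ i ∈ I, Pot a b B (u i) := by
  sorry

theorem pot_pf (h : RatD d a b) {B : Set ℂ} (hB : MeasurableSet B) {φ : ℂ → ℂ} (hφ : Measurable φ) :
    Pot a b B (pf a b φ) ≤ Pot a b B φ := by
  sorry

end Pool.Agent.H18.CP
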