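import Pool.Agent.H18.CP.BrC
import Pool.Agent.H18.CP.PfL

/-!
# [H18 CP CvA] THEOREM CP: one preimage level

PROOF. Fix `i`. Every `z ∈ (pre a b)^[i] (ball c0 s)` is `φ x0`, `x0 = gg^[i] z ∈ ball c0 s`, for a branch `φ` with `Br (rat a b) i c0 ρ (φ c0) φ` (`br_cov`; `g_pre` / `g_rat` of H18/UP/BAS connect `pre` and `rat`), `φ c0 ∈ F i = {z | (rat a b)^[i] z = c0}`, a finite set (`iter_fiber_finite`). For `y ∈ F i` let `φ_y` be a branch with `φ_y c0 = y` (`br_cov` with `z = y`, `x0 = c0`); by `b_uni` (H18/UP/BAS) two branches with the same value at `c0` agree on the ball, so `(pre a b)^[i] (ball c0 s) = ⋃_(y ∈ F i) φ_y '' ball c0 s`; the sets `φ_y '' ball c0 ρ` are disjoint for different `y` (`z = φ_y u = φ_y' u'` gives `u = u'` by `Br.inv`, and `b_uni` again gives `y = y'`), and `φ_y '' D ⊆ (pre a b)^[i] D` (`b_pre`), measurable (injective continuous image of a Borel set: `MeasurableSet.image_of_continuousOn_injOn`,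 `Br.inj`).
So `∫_(pre^i ball) k ≤ ∑_y ∫_(φ_y '' ball) k ≤ C ∑_y ∫_(φ_y '' D) k = C ∫_(⋃ φ_y '' D) k ≤ C ∫_(pre^i D) k`.
-/

set_option autoImplicit false

open Filter Topology Polynomial Metric Set MeasureTheory

namespace Pool.Agent.H18.CP

open Pool.Agent.H44.Fatou (rat rat_continuous)
open Pool.Agent.H80.AJ (Br KK one_le_KK KK_pos distort distort_lip deriv_ne univ_cover)
open Pool.Agent.H61.TT Pool.Agent.H57.CP Pool.Agent.H3.NC Pool.Agent.H18.UP

variable {d : ℕ} {a b : Polynomial ℂ} {J : Set ℂ} {δ0 : ℝ}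

theorem lev_cov (h : Geo d a b J δ0) {c0 : ℂ} {s ρ : ℝ} (hs : 0 < s) (hρ : s ≤ ρ) (hN : ball c0 ρ ⊆ NJ J δ0)
    (hP : Disjoint (ball c0 ρ) (PJ a b J)) {D : Set ℂ} (hD : D ⊆ ball c0 s) (hDm : MeasurableSet D)
    {k : ℂ → ENNReal} {C : ENNReal} (i : ℕ) (hC : ∀ φ : ℂ → ℂ, Br (rat a b) i c0 ρ (φ c0) φ →
      ∫⁻ w in φ '' ball c0 s, k w ≤ C * ∫⁻ w in φ '' D, k w) :
    ∫⁻ w in (pre a b)^[i] (ball c0 s), k w ≤ C * ∫⁻ w in (pre a b)^[i] D, k w := by
  have hρ0 : 0 < ρ := lt_of_lt_of_le hs hρ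
  have hc0 : c0 ∈ ball c0 ρ := mem_ball_self hρ0
  have hsub : ball c0 s ⊆ ball c0 ρ := ball_subset_ball hρ
  have hdeg : 1 ≤ max a.natDegree b.natDegree := by
    have := h.rt.hd
    rw [h.rt.deg]
    omega
  -- the fibre over the centre
  have hF : {y : ℂ | (rat a b)^[i] (y : OnePoint ℂ) = (c0 : OnePoint ℂ)}.Finite := by
    have h1 := Pool.Agent.H32.BT.iter_fiber_finite h.rt.cop hdeg i (c0 : OnePoint ℂ)
    have h2 := h1.preimage (f := ((↑) : ℂ → OnePoint ℂ)) OnePoint.coe_injective.injOn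
    exact h2.subset fun y hy => hy
  have hex : ∀ y : ℂ, ∃ φ : ℂ → ℂ, (rat a b)^[i] (y : OnePoint ℂ) = (c0 : OnePoint ℂ) →
      Br (rat a b) i c0 ρ (φ c0) φ ∧ φ c0 = y := by
    intro y
    by_cases hy : (rat a b)^[i] (y : OnePoint ℂ) = (c0 : OnePoint ℂ)
    · obtain ⟨φ, h1, h2⟩ := br_cov h hρ0 hN hP hc0 hy
      exact ⟨φ, fun _ => ⟨h1, h2⟩⟩
    · exact ⟨id, fun h1 => absurd h1 hy⟩
  choose Φ hΦ using hex
  set S := hF.toFinset with hS
  have hmS : ∀ y, y ∈ S ↔ (rat a b)^[i] (y : OnePoint ℂ) = (c0 : OnePoint ℂ) := by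
    intro y
    rw [hS, Set.Finite.mem_toFinset]
    rfl
  have hcov : (pre a b)^[i] (ball c0 s) ⊆ ⋃ y ∈ S, Φ y '' ball c0 s := by
    intro z hz
    have h1 := g_rat h hz
    have h2 : (gg a b)^[i] z ∈ ball c0 s := (mem_pre.1 hz).2
    obtain ⟨φ, h3, h4⟩ := br_cov h hρ0 hN hP (hsub h2) h1
    have h5 : (rat a b)^[i] ((φ c0 : ℂ) : OnePoint ℂ) = (c0 : OnePoint ℂ) := h3.inv c0 hc0
    obtain ⟨h6, h7⟩ := hΦ (φ c0) h5
    have h8 : EqOn φ (Φ (φ c0)) (ball c0 ρ) :=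
      b_uni h hN hN h3 h6 (convex_ball c0 ρ).isPreconnected (subset_refl _) (subset_refl _) hc0 h7.symm
    refine mem_iUnion₂.2 ⟨φ c0, (hmS _).2 h5, (gg a b)^[i] z, h2, ?_⟩
    rw [← h8 (hsub h2), h4]
  have hdis : (S : Set ℂ).PairwiseDisjoint fun y => Φ y '' D := by
    intro y hy y' hy' hne
    have hy1 := hΦ y ((hmS y).1 hy)
    have hy2 := hΦ y' ((hmS y').1 hy')
    refine Set.disjoint_left.2 ?_
    rintro z ⟨u, hu, rfl⟩ ⟨u', hu', he⟩
    have hu1 := hsub (hD hu)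
    have hu2 := hsub (hD hu')
    have h1 := hy1.1.inv u hu1
    have h2 := hy2.1.inv u' hu2
    rw [he, h1] at h2
    have h3 : u = u' := OnePoint.coe_injective h2
    subst h3
    have h4 : EqOn (Φ y) (Φ y') (ball c0 ρ) :=
      b_uni h hN hN hy1.1 hy2.1 (convex_ball c0 ρ).isPreconnected (subset_refl _) (subset_refl _) hu1 he.symm
    apply hne
    rw [← hy1.2, ← hy2.2]
    exact h4 hc0
  have hmeas : ∀ y ∈ S, MeasurableSet (Φ y '' D) := by
    intro y hy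
    have hy1 := (hΦ y ((hmS y).1 hy)).1
    exact hDm.image_of_continuousOn_injOn (hy1.diff.continuousOn.mono (hD.trans hsub)) (hy1.inj.mono (hD.trans hsub))
  have hin : (⋃ y ∈ S, Φ y '' D) ⊆ (pre a b)^[i] D := by
    intro z hz
    obtain ⟨y, hy, u, hu, rfl⟩ := mem_iUnion₂.1 hz
    have hy1 := (hΦ y ((hmS y).1 hy)).1
    exact pre_mono (singleton_subset_iff.2 hu) (b_pre h hN hy1 (hsub (hD hu)))
  have hν : ∀ T : Set ℂ, ∫⁻ w in T, k w = (volume.withDensity k) T := fun T => (withDensity_apply' k T).symm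
  simp only [hν] at hC ⊢
  calc (volume.withDensity k) ((pre a b)^[i] (ball c0 s)) ≤ (volume.withDensity k) (⋃ y ∈ S, Φ y '' ball c0 s) :=
        measure_mono hcov
    _ ≤ ∑ y ∈ S, (volume.withDensity k) (Φ y '' ball c0 s) := measure_biUnion_finset_le _ _
    _ ≤ ∑ y ∈ S, C * (volume.withDensity k) (Φ y '' D) :=
        Finset.sum_le_sum fun y hy => hC _ (hΦ y ((hmS y).1 hy)).1
    _ = C * ∑ y ∈ S, (volume.withDensity k) (Φ y '' D) := by rw [Finset.mul_sum]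
    _ = C * (volume.withDensity k) (⋃ y ∈ S, Φ y '' D) := by rw [measure_biUnion_finset hdis hmeas]
    _ ≤ C * (volume.withDensity k) ((pre a b)^[i] D) := mul_le_mul_right (measure_mono hin) _

end Pool.Agent.H18.CP
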