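import Pool.Agent.H66.UP.KD
import Pool.Agent.H83.UP.KP2

/-!
# THEOREM CP (critical points of the Julia set of a stable map are postcritical): definitions

`Pot B u`: the potential: the sum of the integrals of `|u|` over all preimages of `B`. `kt t p w = |w - p| ^ (-t)`.
`Hole c0 s`: a set `D` of positive area in `ball c0 s` without late returns to itself.
`PK`: the data of the kernels: `q x`, `x ∈ J`, have finite potentials, `K x` has bounded potential for `x` near `c0` and small potential for `x` near the critical value.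
-/

set_option autoImplicit false

open Filter Topology Polynomial Metric Set MeasureTheory

namespace Pool.Agent.H18.CP

open Pool.Agent.H44.Fatou (rat)
open Pool.Agent.H61.TT Pool.Agent.H57.CP Pool.Agent.H18.UP
open Pool.Agent.H78.NS (pf)

/-- the potential of `u` on the preimages of `B` -/
noncomputable def Pot (a b : Polynomial ℂ) (B : Set ℂ) (u : ℂ → ℂ) : ENNReal :=
  ∑' i : ℕ, ∫⁻ w in (pre a b)^[i] B, ‖u w‖ₑ

/-- the kernel `‖w - p‖ ^ (-t)` -/
noncomputable def kt (t : ℝ) (p w : ℂ) : ENNReal := ENNReal.ofReal (‖w - p‖ ^ (-t))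

/-- a set of positive area in `ball c0 s` without late returns -/
def Hole (a b : Polynomial ℂ) (c0 : ℂ) (s : ℝ) : Prop := ∃ (D : Set ℂ) (n : ℕ), D ⊆ ball c0 s ∧ MeasurableSet D ∧
  volume D ≠ 0 ∧ ∀ w ∈ D, ∀ m : ℕ, n ≤ m → ∀ u ∈ D, (rat a b)^[m] (w : OnePoint ℂ) ≠ (u : OnePoint ℂ)

/-- potentials of the kernels -/
structure PK (a b : Polynomial ℂ) (J : Set ℂ) (c0 : ℂ) (s C : ℝ) (q K : ℂ → ℂ → ℂ) (Y : ℂ → ℂ) : Prop where
  hC : 0 ≤ C
  qm : ∀ x ∈ J, Measurable (q x)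
  qp : ∀ x ∈ J, Pot a b (ball c0 s) (q x) ≠ ⊤
  Kp : ∀ x ∈ J, x ∈ ball c0 1 → Pot a b (ball c0 s) (K x) ≤ ENNReal.ofReal C
  Kv : ∀ ε : ℝ, 0 < ε → ∃ r : ℝ, 0 < r ∧ ∀ x ∈ J, ‖x - gg a b c0‖ < r →
    Pot a b (ball c0 s) (K x) ≤ ENNReal.ofReal ε
  Yn : ∀ ε : ℝ, 0 < ε → ∃ r : ℝ, 0 < r ∧ ∀ x ∈ J, ‖x - gg a b c0‖ < r → ‖Y x - Y (gg a b c0)‖ ≤ ε

end Pool.Agent.H18.CP
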