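import Pool.Agent.H18.CP.Low
import Pool.Agent.H18.CP.BrC

/-!
# [H18 CP End] THEOREM CP: the end of the proof

PROOF. `v = gg c0 ∈ J` (`Geo.Ji`), `Y v ≠ 0` (`KD.Yv`, `Geo.sim`). `low` (module Low): `A0, r0`.
PERIODIC POINTS near `v`: `Geo.ring` gives for small `ρ` a periodic `w ∈ J` near `c0` (`w ∈ (pre a b)^[p] {w}`, `p > 0`), `x = gg w ∈ J` is periodic and close to `v` (continuity of `gg` at `c0`, `b c0 ≠ 0`), `x ∈ pre^[p] {x}`, all points of the orbit are in `J`, `b ≠ 0`, and `dg ≠ 0` on it as `tD p x ≠ 0` (`Geo.rep`: `1 < ‖tD p x‖`; `g_rat`).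
CASE 1: the orbit of `x` is never in `ball c0 (2 s)`: `low` with `n = p k`, `g^n x = x`, `tD (p k) x = (tD p x)^k`: `‖(tD n x)⁻¹‖ → 0`, contradiction.
CASE 2: `n` = the first `j` with `g^j x ∈ ball c0 (2 s)` (`2 s ≤ 1`): `A0 ≤ ‖(tD n x)⁻¹‖`. `w' = g^n x`; `ball w' (8 s) ⊆ ball c0 (16 s)`: `br_cov`: branch `ψ` of `g^(-n)` on `ball w' (8 s)`, `ψ w' = x`, `‖deriv ψ w'‖ = ‖(tD n x)⁻¹‖ ≥ A0` (`b_der`), `univ_cover`: `ball x (8 s A0 / 16) ⊆ ψ '' ball w' (8 s)`. So `rat^[n]` is injective on `ball x (s A0 / 2)` (`Br.inv`), which contains `ball v (s A0 / 4)` if `‖x - v‖ < s A0 / 4`. Let `N` be the number of `Geo.ni` for `v` and `s A0 / 4`: so `n ≤ N`.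
But for `x` close to `v` no `rat^[j] x`, `j ≤ N`, is in `ball c0 (2 s)`: `rat^[j]` is continuous, `rat^[j] v` is not in the closed set `coe '' closedBall c0 (3 s)`: otherwise `v ∈ pre^[j] (ball c0 (16 s))`, so `gg^[j] v = gg^[j+1] c0 ∈ PJ` (`p_cr`; `c0 ∈ pre^[j+1] univ`): against `hP`. Choose the ring radius `ρ` small enough for all three conditions.
-/

set_option autoImplicit false

open Filter Topology Polynomial Metric Set MeasureTheory

namespace Pool.Agent.H18.CP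

open Pool.Agent.H44.Fatou (rat rat_continuous)
open Pool.Agent.H80.AJ (Br KK one_le_KK KK_pos distort distort_lip deriv_ne univ_cover)
open Pool.Agent.H61.TT Pool.Agent.H57.CP Pool.Agent.H3.NC Pool.Agent.H18.UP
open Pool.Agent.H66.UP (KD)

variable {d : ℕ} {a b : Polynomial ℂ} {J Z : Set ℂ} {c0 : ℂ} {δ0 δ1 R C C1 s : ℝ} {q r K : ℂ → ℂ → ℂ} {Y : ℂ → ℂ}

theorem cp_end (hG : Geo d a b J δ0) (H : KD a b J Z c0 δ1 R C q r K Y) (P : PK a b J c0 s C1 q K Y) (hs : 0 < s)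
    (hs1 : 2 * s ≤ 1) (hsδ : 2 * s ≤ δ1) (hN : ball c0 (16 * s) ⊆ NJ J δ0)
    (hP : Disjoint (ball c0 (16 * s)) (PJ a b J)) : False := by
  sorry

end Pool.Agent.H18.CP
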