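import Pool.Agent.H18.CP.Defs

/-!
# [H18 CP Mea] THEOREM CP: the mean value inequality

PROOF. For `0 < ρ < 2 s`: `f c = (2π)⁻¹ ∫_0^(2π) f (c + ρ e^(iθ)) dθ` (Cauchy; Mathlib: `circleAverage`, `DiffContOnCl.circleAverage` or `circleIntegral` formula), so `‖f c‖ ≤ (2π)⁻¹ ∫ ‖f (c + ρ e^(iθ))‖ dθ`; multiply by `ρ` and integrate over `0 < ρ < s` (polar coordinates, `Complex.lintegral_comp_polarCoord_symm`). The library has results of this kind (search `mean` in H43/UP/Int1, H43/UP/Core, H80, H3/NC, H1/PU); use one if it fits.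
-/

set_option autoImplicit false

open Filter Topology Polynomial Metric Set MeasureTheory

namespace Pool.Agent.H18.CP

/-- the mean value inequality -/
theorem mean_le {f : ℂ → ℂ} {c : ℂ} {s : ℝ} (hs : 0 < s) (hf : DifferentiableOn ℂ f (ball c (2 * s))) :
    ENNReal.ofReal (Real.pi * s ^ 2 * ‖f c‖) ≤ ∫⁻ w in ball c s, ‖f w‖ₑ := by
  sorry

end Pool.Agent.H18.CP
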