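import Pool.Agent.H18.CP.PfL
import Pool.Agent.H18.CP.Mea
import Pool.Agent.H43.UP.S2B

/-!
# [H18 CP Est] THEOREM CP: the estimate

PROOF. `B = ball c0 s ⊆ Z` (`KD.Zb`), all `pre^i B ⊆ Z` (`KD.Zp`). `H w = So a b x n (fun y => q y w) = ∑_(j<n) (tD j x)⁻¹ q (g^j x) w` (H43/UP/S2A), measurable.
(1) `H c0 = - (Y x - (tD n x)⁻¹ Y (g^n x))`: `So_tel` with `Φ = fun y => - q y c0`, `Ψ = Y` (`KD.Ys`), as in `so_v` (H43/UP/S2E).
(2) for a.e. `w ∈ Z`: `H w - pf H w = u w`, `u w = K x w - (tD n x)⁻¹ K (g^n x) w`: `pf H w = So x n (fun y => pf (q y) w)` (`pf` is linear, as `pf_LC` in S2B), `KD.step` for the `n` points (finite intersection of a.e. sets), `So_tel` with `Φ y = q y w - pf (q y) w`, `Ψ y = K y w`.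
(3) `a_i = ∫_(pre^i B) |H|`: `a_i ≤ ∫_(pre^i B) |u| + ∫_(pre^i B) |pf H| ≤ ∫_(pre^i B) |u| + a_(i+1)` (`pf_set`, `Function.iterate_succ_apply'`), so `a_0 ≤ ∑_(i<I) ∫_(pre^i B) |u| + a_I ≤ Pot B u + a_I`; `∑ a_i = Pot B H ≤ ∑_j ‖tD j x‖⁻¹ Pot (q (g^j x)) < ∞` (`pot_sum`, `PK.qp`), so `a_I → 0` (`ENNReal.tendsto_atTop_zero_of_tsum_ne_top`): `a_0 ≤ Pot B u ≤ Pot (K x) + ‖(tD n x)⁻¹‖ₑ Pot (K (g^n x))` (`pot_add'`, `KD.Ki`).
(4) `H` is holomorphic on `ball c0 (2 s)`: `q y w = 1 / (w - y) + r y w` for `y = g^j x ∉ ball c0 (2 s)` (`KD.rq`, `rh`, `2 s ≤ δ1`). Mean value (`mean_le`, module Mea): `π s^2 ‖H c0‖ ≤ ∫_B ‖H‖`.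
-/

set_option autoImplicit false

open Filter Topology Polynomial Metric Set MeasureTheory

namespace Pool.Agent.H18.CP

open Pool.Agent.H44.Fatou (rat rat_continuous)
open Pool.Agent.H61.TT Pool.Agent.H57.CP Pool.Agent.H3.NC Pool.Agent.H18.UP
open Pool.Agent.H78.NS (pf)
open Pool.Agent.H66.UP (KD)
open Pool.Agent.H43.UP (So So_tel So_sub)

variable {d : ℕ} {a b : Polynomial ℂ} {J Z : Set ℂ} {c0 : ℂ} {δ1 R C C1 s : ℝ} {q r K : ℂ → ℂ → ℂ} {Y : ℂ → ℂ}

private theorem pf_So (x : ℂ) (n : ℕ) (w : ℂ) :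
    pf a b (fun w => So a b x n (fun y => q y w)) w = So a b x n (fun y => pf a b (q y) w) := by
  simp only [pf, So, Finset.sum_div, mul_div_assoc, Finset.mul_sum]
  rw [Finset.sum_comm]

private theorem So_neg (x : ℂ) (N : ℕ) (Φ : ℂ → ℂ) :
    So a b x N (fun y => - Φ y) = - So a b x N Φ := by
  unfold So
  rw [← Finset.sum_neg_distrib]
  exact Finset.sum_congr rfl fun i _ => by ring

/-- (1) the value at `c0` -/
private theorem val_c (H : KD a b J Z c0 δ1 R C q r K Y) {x : ℂ} {n : ℕ} (hx : ∀ j ≤ n, (gg a b)^[j] x ∈ J)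
    (hb : ∀ j < n, b.eval ((gg a b)^[j] x) ≠ 0) (hd : ∀ j < n, dg a b ((gg a b)^[j] x) ≠ 0) :
    So a b x n (fun y => q y c0) = - (Y x - (tD a b n x)⁻¹ * Y ((gg a b)^[n] x)) := by
  have h2 := So_tel (a := a) (b := b) (x := x) (N := n) hd
    (fun x => - q x c0) Y (fun i hi => (H.Ys _ (hx i hi.le) (hb i hi) (hd i hi)).symm)
  rw [So_neg (Φ := fun x => q x c0)] at h2
  rw [← h2, neg_neg]

/-- (2) the equation almost everywhere on `Z` -/
private theorem eq_ae (H : KD a b J Z c0 δ1 R C q r K Y) {x : ℂ} {n : ℕ} (hx : ∀ j ≤ n, (gg a b)^[j] x ∈ J)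
    (hb : ∀ j < n, b.eval ((gg a b)^[j] x) ≠ 0) (hd : ∀ j < n, dg a b ((gg a b)^[j] x) ≠ 0) :
    ∀ᵐ w : ℂ, w ∈ Z → So a b x n (fun y => q y w) - pf a b (fun w => So a b x n (fun y => q y w)) w =
      K x w - (tD a b n x)⁻¹ * K ((gg a b)^[n] x) w := by
  have e1 : ∀ᵐ w : ℂ, ∀ i : ℕ, i < n → w ∈ Z →
      q ((gg a b)^[i] x) w - pf a b (q ((gg a b)^[i] x)) w =
        K ((gg a b)^[i] x) w - K (gg a b ((gg a b)^[i] x)) w / dg a b ((gg a b)^[i] x) := by
    rw [ae_all_iff]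
    intro i
    by_cases hi : i < n
    · filter_upwards [H.step _ (hx i hi.le) (hb i hi) (hd i hi)] with w hw _ using hw
    · exact Filter.Eventually.of_forall fun w h' => absurd h' hi
  filter_upwards [e1] with w w1 hw
  rw [pf_So, ← So_sub]
  exact So_tel hd _ (fun x => K x w) fun i hi => w1 i hi hw

private theorem So_meas (P : PK a b J c0 s C1 q K Y) {x : ℂ} {n : ℕ} (hx : ∀ j ≤ n, (gg a b)^[j] x ∈ J) :
    Measurable (fun w => So a b x n (fun y => q y w)) := by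
  unfold So
  refine Finset.measurable_fun_sum _ fun i hi => ?_
  exact (P.qm _ (hx i (Finset.mem_range.1 hi).le)).const_mul _

private theorem pre_Z (H : KD a b J Z c0 δ1 R C q r K Y) (hs : 0 < s) (hsδ : 2 * s ≤ δ1) (i : ℕ) :
    (pre a b)^[i] (ball c0 s) ⊆ Z := by
  induction i with
  | zero => exact (ball_subset_ball (by linarith)).trans H.Zb
  | succ i ih =>
    rw [Function.iterate_succ_apply']
    intro w hw
    exact H.Zp ⟨hw.1, ih hw.2⟩

/-- (4) holomorphy -/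
private theorem So_hol (H : KD a b J Z c0 δ1 R C q r K Y) (hsδ : 2 * s ≤ δ1) {x : ℂ} {n : ℕ}
    (hx : ∀ j ≤ n, (gg a b)^[j] x ∈ J) (ho : ∀ j < n, (gg a b)^[j] x ∉ ball c0 (2 * s)) :
    DifferentiableOn ℂ (fun w => So a b x n (fun y => q y w)) (ball c0 (2 * s)) := by
  unfold So
  refine DifferentiableOn.fun_sum fun i hi => ?_
  have hi' := Finset.mem_range.1 hi
  refine DifferentiableOn.const_mul ?_ _
  have h1 : DifferentiableOn ℂ (fun w => 1 / (w - (gg a b)^[i] x) + r ((gg a b)^[i] x) w) (ball c0 (2 * s)) := by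
    refine DifferentiableOn.add ?_ ((H.rh _ (hx i hi'.le)).mono (ball_subset_ball hsδ))
    refine DifferentiableOn.div (differentiableOn_const _) (differentiableOn_id.sub_const _) fun w hw => ?_
    rw [sub_ne_zero]
    rintro rfl
    exact ho i hi' hw
  refine h1.congr fun w hw => ?_
  refine H.rq _ (hx i hi'.le) w (ball_subset_ball hsδ hw) ?_
  rintro rfl
  exact ho i hi' hw

private theorem pot_So (P : PK a b J c0 s C1 q K Y) {B : Set ℂ} (hB : B = ball c0 s) {x : ℂ} {n : ℕ}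
    (hx : ∀ j ≤ n, (gg a b)^[j] x ∈ J) :
    Pot a b B (fun w => So a b x n (fun y => q y w)) ≠ ⊤ := by
  have h1 : Pot a b B (fun w => So a b x n (fun y => q y w)) ≤
      ∑ i ∈ Finset.range n, Pot a b B (fun w => (tD a b i x)⁻¹ * q ((gg a b)^[i] x) w) := by
    unfold So
    refine pot_sum (Z := univ) _ (fun i => subset_univ _) fun i hi => ?_
    exact ((P.qm _ (hx i (Finset.mem_range.1 hi).le)).const_mul _).aestronglyMeasurable
  refine ne_top_of_le_ne_top ?_ h1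
  rw [ENNReal.sum_ne_top]
  intro i hi
  rw [pot_mul, hB]
  exact ENNReal.mul_ne_top enorm_ne_top (P.qp _ (hx i (Finset.mem_range.1 hi).le))

theorem est (h : RatD d a b) (H : KD a b J Z c0 δ1 R C q r K Y) (P : PK a b J c0 s C1 q K Y) (hs : 0 < s)
    (hsδ : 2 * s ≤ δ1) {x : ℂ} {n : ℕ} (hx : ∀ j ≤ n, (gg a b)^[j] x ∈ J)
    (hb : ∀ j < n, b.eval ((gg a b)^[j] x) ≠ 0) (hd : ∀ j < n, dg a b ((gg a b)^[j] x) ≠ 0)
    (ho : ∀ j < n, (gg a b)^[j] x ∉ ball c0 (2 * s)) :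
    ENNReal.ofReal (Real.pi * s ^ 2 * ‖Y x - (tD a b n x)⁻¹ * Y ((gg a b)^[n] x)‖) ≤
      Pot a b (ball c0 s) (K x) + ‖(tD a b n x)⁻¹‖ₑ * Pot a b (ball c0 s) (K ((gg a b)^[n] x)) := by
  obtain ⟨F, hF⟩ : ∃ F : ℂ → ℂ, F = fun w => So a b x n (fun y => q y w) := ⟨_, rfl⟩
  obtain ⟨u, hu⟩ : ∃ u : ℂ → ℂ, u = fun w => K x w + (-(tD a b n x)⁻¹) * K ((gg a b)^[n] x) w := ⟨_, rfl⟩
  have hFm : Measurable F := by rw [hF]; exact So_meas P hx
  have hFp : Pot a b (ball c0 s) F ≠ ⊤ := by rw [hF]; exact pot_So P rfl hx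
  have hZi : ∀ i : ℕ, (pre a b)^[i] (ball c0 s) ⊆ Z := fun i => pre_Z H hs hsδ i
  have hKx : AEStronglyMeasurable (K x) (volume.restrict Z) := (H.Ki x (hx 0 (Nat.zero_le _))).1
  have hKn : AEStronglyMeasurable (fun w => (-(tD a b n x)⁻¹) * K ((gg a b)^[n] x) w) (volume.restrict Z) :=
    (H.Ki _ (hx n le_rfl)).1.const_mul _
  have hum : AEStronglyMeasurable u (volume.restrict Z) := by rw [hu]; exact hKx.add hKn
  have heq : ∀ᵐ w : ℂ, w ∈ Z → F w - pf a b F w = u w := by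
    filter_upwards [eq_ae H hx hb hd] with w hw hwZ
    have e := hw hwZ
    rw [← hF] at e
    rw [hu]
    have e2 : F w = So a b x n (fun y => q y w) := by rw [hF]
    rw [e2, e]
    ring
  obtain ⟨α, hα⟩ : ∃ α : ℕ → ENNReal, α = fun i => ∫⁻ w in (pre a b)^[i] (ball c0 s), ‖F w‖ₑ := ⟨_, rfl⟩
  have hstep : ∀ i, α i ≤ (∫⁻ w in (pre a b)^[i] (ball c0 s), ‖u w‖ₑ) + α (i + 1) := by
    intro i
    have hm := pre_ms (a := a) (b := b) (measurableSet_ball (x := c0) (ε := s)) i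
    have h1 : α i ≤ ∫⁻ w in (pre a b)^[i] (ball c0 s), (‖u w‖ₑ + ‖pf a b F w‖ₑ) := by
      rw [hα]
      refine lintegral_mono_ae ?_
      rw [ae_restrict_iff' hm]
      filter_upwards [heq] with w hw hwi
      have e := hw (hZi i hwi)
      have e2 : F w = u w + pf a b F w := by rw [← e]; ring
      rw [e2]
      exact enorm_add_le _ _
    refine h1.trans ?_
    have hum' : AEMeasurable (fun w => ‖u w‖ₑ) (volume.restrict ((pre a b)^[i] (ball c0 s))) :=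
      (hum.mono_measure (Measure.restrict_mono (hZi i) le_rfl)).enorm
    rw [lintegral_add_left' hum']
    refine add_le_add le_rfl ?_
    have h2 := pf_set h hFm hm
    rw [hα]
    beta_reduce
    rw [Function.iterate_succ_apply']
    exact h2
  have hsum : ∀ I : ℕ, α 0 ≤ (∑ i ∈ Finset.range I, ∫⁻ w in (pre a b)^[i] (ball c0 s), ‖u w‖ₑ) + α I := by
    intro I
    induction I with
    | zero => simp
    | succ I ih =>
      rw [Finset.sum_range_succ, add_assoc]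
      exact ih.trans (add_le_add le_rfl (hstep I))
  have hsum2 : ∀ I : ℕ, α 0 ≤ Pot a b (ball c0 s) u + α I := fun I =>
    (hsum I).trans (add_le_add (ENNReal.sum_le_tsum _) le_rfl)
  have hlim : Tendsto α atTop (𝓝 0) := by
    apply ENNReal.tendsto_atTop_zero_of_tsum_ne_top
    rw [hα]
    exact hFp
  have ha0 : α 0 ≤ Pot a b (ball c0 s) u := by
    have h1 : Tendsto (fun I => Pot a b (ball c0 s) u + α I) atTop (𝓝 (Pot a b (ball c0 s) u + 0)) :=
      tendsto_const_nhds.add hlim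
    rw [add_zero] at h1
    exact ge_of_tendsto' h1 hsum2
  have hpu : Pot a b (ball c0 s) u ≤
      Pot a b (ball c0 s) (K x) + ‖(tD a b n x)⁻¹‖ₑ * Pot a b (ball c0 s) (K ((gg a b)^[n] x)) := by
    rw [hu]
    refine (pot_add' (Z := Z) hZi hKn).trans ?_
    rw [pot_mul, enorm_neg]
  refine le_trans ?_ (ha0.trans hpu)
  have hhol : DifferentiableOn ℂ F (ball c0 (2 * s)) := by
    rw [hF]
    exact So_hol H hsδ hx ho
  have h1 := mean_le hs hhol
  have h2 : F c0 = - (Y x - (tD a b n x)⁻¹ * Y ((gg a b)^[n] x)) := by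
    rw [hF]
    exact val_c H hx hb hd
  rw [h2, norm_neg] at h1
  refine h1.trans (le_of_eq ?_)
  rw [hα]
  rfl

end Pool.Agent.H18.CP
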