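import Pool.Agent.H3.UP.FTR
import Pool.Agent.H57.CF.ALF
import Pool.Agent.H64.PC.Fin

/-!
# Every critical point in the Julia set is a limit point of a recurrent one: all families

`conc_end`: the dichotomies `conc_or` (H64/PC) and `concF_all` (H57/CF) for all `m ≤ d`.
-/

set_option autoImplicit false

open Filter Topology Polynomial Metric Set

namespace Pool.Agent.H18.CP

open Pool.Agent.H44.Fatou Pool.Agent.H32.BT Pool.Agent.H79.Eul Pool.Agent.H79.Par
open Pool.Agent.H35.EX Pool.Agent.H56.HR Pool.Agent.H44.RC Pool.Agent.H47.RJ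
open Pool.Agent.H44.ND Pool.Agent.H44.CP Pool.Agent.H57.CP Pool.Agent.H57.CF Pool.Agent.H79.ES Pool.Agent.H47.NM Pool.Agent.H64.NC

variable {d : ℕ}

theorem conc_end {m : ℕ} (hd : 2 ≤ d) (hm : m ≤ d) {x : Em d m} (hcop : IsCoprime (pol x.1) (pol x.2))
    (hdeg : max (pol x.1).natDegree (pol x.2).natDegree = d) (hup : ¬ UpF d m x) :
    ConcP (Rf (ex d m x)) := by
  have hcop' := ex_cop hcop
  have hdeg' := ex_deg hdeg
  have key : ¬ Up (ex d m x) → ConcP (Rf (ex d m x)) := fun h =>
    (Pool.Agent.H64.PC.conc_or hd hcop' hdeg').resolve_right h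
  rcases Nat.lt_or_ge m 2 with h2 | h2
  · rcases Nat.lt_or_ge m 1 with h1 | h1
    · obtain rfl : m = 0 := by omega
      exact key fun h => hup (Pool.Agent.H64.NC.up_zero h)
    · obtain rfl : m = 1 := by omega
      exact key fun h => hup (Pool.Agent.H64.PF.up_one hd hcop hdeg h)
  · exact (concF_all hd h2 hm hcop hdeg).resolve_right hup

end Pool.Agent.H18.CP
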