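import Pool.Agent.H18.CP.Defs
import Pool.Agent.H83.UP.ALL
import Pool.Agent.H56.HR.EMN

/-!
# [H18 CP HolP] THEOREM CP: the hole, Julia set not the sphere

PROOF. `T` is a trap (closed, `Rf u` maps `T` into `interior T`, `T ⊆ FS`), `∞ ∈ interior T`. `c0 ∈ JS`, so `c0 ∉ T`: choose `s' ≤ s` such that `coe '' ball c0 s'` does not meet `T`. The iterates of the neighbourhood `ball c0 s'` of the Julia point `c0` cover the sphere except a finite (exceptional) set, so they meet the nonempty open set `interior T`: there are `n` and `z ∈ ball c0 s'` with `(Rf u)^[n] z ∈ interior T` (otherwise the iterates omit an open set on `ball c0 s'`, so they are a normal family there: Montel; search the library: backward orbits, exceptional points, `JS`, e.g. H44/NR, H91, `js_dense`, `exact`, `blow`, or the periodic points version: H1/PU/Jpl, H44/NR/Pdj; an omitted nonempty open set is also enough to get uniformly bounded iterates in a chart where a point of `interior T` is infinity). `D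 = ball c0 s' ∩ {w | (Rf u)^[n] w ∈ interior T}` is open, not empty; for `w ∈ D`, `m ≥ n`: `(Rf u)^[m] w ∈ T` (`GA.tit`), so it is not in `D`.
-/

set_option autoImplicit false

open Filter Topology Polynomial Metric Set MeasureTheory

namespace Pool.Agent.H18.CP

open Pool.Agent.H44.Fatou (rat rat_continuous ev wv crit_coe)
open Pool.Agent.H56.HR (FS EqAt)
open Pool.Agent.H32.BT Pool.Agent.H79.Eul Pool.Agent.H79.Par Pool.Agent.H47.NN Pool.Agent.H44.ND
open Pool.Agent.H79.ES Pool.Agent.H35.EX Pool.Agent.H44.RC Pool.Agent.H47.RJ Pool.Agent.H84.BR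
open Pool.Agent.H61.TT Pool.Agent.H57.CP Pool.Agent.H3.NC Pool.Agent.H57.CF Pool.Agent.H47.NM Pool.Agent.H47.PS
open Pool.Agent.H64.NC Pool.Agent.H18.UP Pool.Agent.H66.UP

variable {d : ℕ}

theorem hole_ga {u : E d} {T : Set (OnePoint ℂ)} (h : GA u T) {c0 : ℂ} (hc : c0 ∈ JC u) {s : ℝ} (hs : 0 < s) :
    Hole (pol u.1) (pol u.2) c0 s := by
  have hTF : ∀ x ∈ T, x ∈ FS (Rf u) := fun x hx => h.af x (h.tr.att x hx)
  have hcT : (c0 : OnePoint ℂ) ∉ T := fun h1 => hc (hTF _ h1)
  have hopen : IsOpen {w : ℂ | (w : OnePoint ℂ) ∉ T} :=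
    h.tr.closed.isOpen_compl.preimage OnePoint.continuous_coe
  obtain ⟨r, hr, hrT⟩ := Metric.isOpen_iff.1 hopen c0 hcT
  have hs' : 0 < min s r := lt_min hs hr
  have hJ := Pool.Agent.H56.HR.emn h.hd h.cop h.deg (z0 := (c0 : OnePoint ℂ)) hc
  obtain ⟨y, hyU, n, hyn⟩ := hJ ((fun w : ℂ => (w : OnePoint ℂ)) '' ball c0 (min s r))
    (OnePoint.isOpenEmbedding_coe.isOpenMap _ isOpen_ball) ⟨c0, mem_ball_self hs', rfl⟩
    (interior T) isOpen_interior ⟨_, h.ti⟩
  obtain ⟨w0, hw0, hw0y⟩ := hyU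
  have hw0y' : (w0 : OnePoint ℂ) = y := hw0y
  rw [← hw0y'] at hyn
  have hcont : Continuous fun w : ℂ => (Rf u)^[n] (w : OnePoint ℂ) :=
    ((rat_continuous h.cop).iterate n).comp OnePoint.continuous_coe
  have hDo : IsOpen (ball c0 (min s r) ∩ {w : ℂ | (Rf u)^[n] (w : OnePoint ℂ) ∈ interior T}) :=
    isOpen_ball.inter (isOpen_interior.preimage hcont)
  refine ⟨_, n, fun w hw => ball_subset_ball (min_le_left s r) hw.1, hDo.measurableSet,
    (hDo.measure_pos volume ⟨w0, hw0, hyn⟩).ne', ?_⟩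
  intro w hw m hm z hz hwz
  have h1 : (Rf u)^[m] (w : OnePoint ℂ) ∈ T := by
    obtain ⟨k, rfl⟩ := Nat.exists_eq_add_of_le hm
    rw [add_comm, Function.iterate_add_apply]
    exact h.tit k _ (interior_subset hw.2)
  have h2 : (Rf u)^[m] (w : OnePoint ℂ) = (z : OnePoint ℂ) := hwz
  rw [h2] at h1
  exact hrT (ball_subset_ball (min_le_right s r) hz.1) h1

end Pool.Agent.H18.CP
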