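import Pool.Agent.H83.UP.KP3
import Pool.Agent.H18.CP.PfL

/-!
# [H18 CP KdE] THEOREM CP: the kernel data with explicit coefficients, Julia set not the sphere

`hcoE`: the proof of `hcoP` (H83/UP/KP1), which has exactly these functions `hh`; the statement here keeps the formula. `kd_e`: the proof of `kd_p` (H83/UP/KP3) with `hcoE` in place of `hcoP` and the kernel `KQ D hh V` and `δ1 = δ0` in the statement (private lemmas of KP1, KP3 may be copied).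
-/

set_option autoImplicit false

open Filter Topology Polynomial Metric Set MeasureTheory

namespace Pool.Agent.H18.CP

open Pool.Agent.H61.TT Pool.Agent.H57.CP Pool.Agent.H3.NC Pool.Agent.H78.NS Pool.Agent.H31.NS Pool.Agent.H18.UP Pool.Agent.H66.UP
open Pool.Agent.H83.UP (qq LgP KQ z_meas z_bd z_pre z_ball qq_int pfq_int lgp_ae step_p val0_p crit_p tri_p eta_p vj_lin vj_crit sim_p VJ)

variable {d D : ℕ} {a b : Polynomial ℂ} {J : Set ℂ} {δ0 R0 : ℝ}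

theorem hcoE (h : NS d D a b J δ0 R0) {Z : Set ℂ} {R : ℝ} (hZm : MeasurableSet Z) (hZ : ∀ z ∈ Z, ‖z‖ ≤ R)
    (hp : pre a b Z ⊆ Z) : ∃ (hh : ℕ → ℂ → ℂ) (F : Finset ℂ) (co : ℕ → ℂ → ℂ), (∀ j, IntegrableOn (hh j) Z) ∧
      (∀ᵐ w : ℂ, LgP D a b w (∑ j ∈ Finset.range (D + 1), C (hh j w) * X ^ j)) ∧
      ∀ j w, hh j w = ∑ p ∈ F, co j p * (b.eval p ^ 2 * (dg a b p * pf a b (qq p) w - qq (gg a b p) w)) := by
  sorry

theorem kd_e (h : US0 d D a b J δ0 R0) {C0 : ℝ} {V : ℕ → ℂ → ℂ} (hV : VP D a b J C0 V) {c0 : ℂ} (hcJ : c0 ∈ J)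
    (hw : (ww a b).eval c0 = 0) :
    ∃ (hh : ℕ → ℂ → ℂ) (F : Finset ℂ) (co : ℕ → ℂ → ℂ) (R C : ℝ) (r : ℂ → ℂ → ℂ) (Y : ℂ → ℂ),
      KD a b J (ZV a b (NJ J δ0)) c0 δ0 R C qq r (KQ D hh V) Y ∧ (∀ x ∈ J, ‖x‖ ≤ R) ∧
      ∀ j w, hh j w = ∑ p ∈ F, co j p * (b.eval p ^ 2 * (dg a b p * pf a b (qq p) w - qq (gg a b p) w)) := by
  sorry

end Pool.Agent.H18.CP
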