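import Pool.Agent.H18.CP.Defs

/-!
# [H18 CP Kin] THEOREM CP: integrals of `‖w - p‖ ^ (-t)`

`kin_t`: translate to `p = 0` and use polar coordinates (Mathlib: `MeasureTheory.integral_fun_norm_addHaar` / `lintegral_fun_norm_addHaar`, or `Complex.lintegral_comp_polarCoord_symm`), or sum over the rings `r 2^(-k-1) ≤ ‖w - p‖ < r 2^(-k)`: area `≤ π r^2 4^(-k)`, integrand `≤ (r 2^(-k-1))^(-t)`, geometric series with ratio `2^(t-2) < 1`.
`kt_ball`: on `‖w - p‖ ≥ 1` the kernel is at most `1`: `∫ ≤ C_t + π R ^ 2`.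
`kt_meas`: measurability.
`q_diff`: `|x - v| / (|w - x| |w - v|) ≤ |x - v|^(1/2) (|w - x|^(1/2) + |w - v|^(1/2)) / (|w - x| |w - v|) = |x - v|^(1/2) (A^(-1/2) B^(-1) + A^(-1) B^(-1/2))`, `A = |w - x|`, `B = |w - v|`, and `A^(-1/2) B^(-1) ≤ A^(-3/2) + B^(-3/2)` (the smaller of `A`, `B`). If `w = x` or `w = v`: the statement is only for `w ≠ x`, `w ≠ v`.
-/

set_option autoImplicit false

open Filter Topology Polynomial Metric Set MeasureTheory

namespace Pool.Agent.H18.CP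

theorem kt_meas (t : ℝ) (p : ℂ) : Measurable (kt t p) := by
  unfold kt
  exact ((measurable_id.sub_const p).norm.pow_const (-t)).ennreal_ofReal

/-- the integral in polar coordinates -/
private theorem kin_aux {t : ℝ} (h2 : t < 2) {r : ℝ} (hr : 0 < r) :
    ∫⁻ w in ball (0 : ℂ) r, ENNReal.ofReal (‖w‖ ^ (-t)) ≤
      ENNReal.ofReal (2 * volume.real (ball (0 : ℂ) 1) / (2 - t) * r ^ (2 - t)) := by
  have hint : IntegrableOn (fun w : ℂ => ‖w‖ ^ (-t)) (ball (0 : ℂ) r) volume := by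
    rw [integrableOn_fun_norm_addHaar (f := fun y : ℝ => y ^ (-t)) volume, Complex.finrank_real_complex]
    have h1 : IntegrableOn (fun y : ℝ => y ^ (1 - t)) (Ioo 0 r) := by
      have h3 := (intervalIntegral.intervalIntegrable_rpow' (a := 0) (b := r) (r := 1 - t) (by linarith)).1
      exact h3.mono_set Ioo_subset_Ioc_self
    refine h1.congr_fun (fun y hy => ?_) measurableSet_Ioo
    have hy0 : 0 < y := hy.1
    simp only [smul_eq_mul]
    rw [show (2 - 1 : ℕ) = 1 from rfl, pow_one, show (1 - t : ℝ) = 1 + -t from by ring, Real.rpow_add hy0, Real.rpow_one]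
  have hval : ∫ w in ball (0 : ℂ) r, ‖w‖ ^ (-t) = 2 * volume.real (ball (0 : ℂ) 1) / (2 - t) * r ^ (2 - t) := by
    have h3 : ∫ w in ball (0 : ℂ) r, ‖w‖ ^ (-t) = ∫ w : ℂ, (indicator (Iio r) fun y : ℝ => y ^ (-t)) ‖w‖ := by
      rw [← integral_indicator measurableSet_ball]
      refine integral_congr_ae (Filter.Eventually.of_forall fun w => ?_)
      simp only [indicator, mem_ball, dist_zero_right, mem_Iio]
    rw [h3, integral_fun_norm_addHaar volume, Complex.finrank_real_complex]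
    have h4 : ∫ y in Ioi (0 : ℝ), y ^ (2 - 1) • (indicator (Iio r) fun y : ℝ => y ^ (-t)) y = r ^ (2 - t) / (2 - t) := by
      have h5 : ∫ y in Ioi (0 : ℝ), y ^ (2 - 1) • (indicator (Iio r) fun y : ℝ => y ^ (-t)) y =
          ∫ y in Ioi (0 : ℝ), (indicator (Iio r) fun y : ℝ => y ^ (1 - t)) y := by
        refine setIntegral_congr_fun measurableSet_Ioi fun y hy => ?_
        have hy0 : 0 < y := hy
        by_cases hyr : y ∈ Iio r
        · simp only [indicator_of_mem hyr, smul_eq_mul]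
          rw [show (2 - 1 : ℕ) = 1 from rfl, pow_one, show (1 - t : ℝ) = 1 + -t from by ring, Real.rpow_add hy0, Real.rpow_one]
        · simp only [indicator_of_notMem hyr, smul_zero]
      rw [h5, setIntegral_indicator measurableSet_Iio, Ioi_inter_Iio, ← integral_Ioc_eq_integral_Ioo,
        ← intervalIntegral.integral_of_le hr.le, integral_rpow (Or.inl (by linarith))]
      rw [show (1 - t + 1 : ℝ) = 2 - t from by ring, Real.zero_rpow (by linarith), sub_zero]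
    rw [h4]
    simp only [nsmul_eq_mul, smul_eq_mul]
    push_cast
    ring
  rw [← hval, ofReal_integral_eq_lintegral_ofReal hint]
  exact Filter.Eventually.of_forall fun w => by positivity

theorem kin_t {t : ℝ} (h0 : 0 < t) (h2 : t < 2) : ∃ C : ℝ, 0 ≤ C ∧ ∀ (p : ℂ) (r : ℝ), 0 < r →
    ∫⁻ w in ball p r, kt t p w ≤ ENNReal.ofReal (C * r ^ (2 - t)) := by
  refine ⟨2 * volume.real (ball (0 : ℂ) 1) / (2 - t), ?_, fun p r hr => ?_⟩
  · have h3 : 0 < 2 - t := by linarith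
    positivity
  refine le_trans (le_of_eq ?_) (kin_aux h2 hr)
  have h3 : ∫⁻ w in ball p r, kt t p w = ∫⁻ w in (fun w : ℂ => w - p) ⁻¹' ball (0 : ℂ) r, ENNReal.ofReal (‖w - p‖ ^ (-t)) := by
    have h4 : (fun w : ℂ => w - p) ⁻¹' ball (0 : ℂ) r = ball p r := by
      ext w
      simp [mem_ball, dist_eq_norm]
    rw [h4]
    rfl
  rw [h3]
  have hmp : MeasurePreserving (fun w : ℂ => w - p) volume volume := measurePreserving_sub_right volume p
  exact hmp.setLIntegral_comp_preimage measurableSet_ball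
    (f := fun w : ℂ => ENNReal.ofReal (‖w‖ ^ (-t))) ((measurable_norm.pow_const (-t)).ennreal_ofReal)

theorem kt_ball {t : ℝ} (h0 : 0 < t) (h2 : t < 2) (R : ℝ) : ∃ C : ℝ, 0 ≤ C ∧ ∀ p : ℂ,
    ∫⁻ w in closedBall (0 : ℂ) R, kt t p w ≤ ENNReal.ofReal C := by
  obtain ⟨C, hC, hk⟩ := kin_t h0 h2
  refine ⟨C + volume.real (closedBall (0 : ℂ) R), by positivity, fun p => ?_⟩
  have h1 : ∀ w : ℂ, kt t p w ≤ (ball p 1).indicator (kt t p) w + 1 := by
    intro w
    by_cases hw : w ∈ ball p 1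
    · rw [indicator_of_mem hw]
      exact le_self_add
    · rw [indicator_of_notMem hw, zero_add]
      unfold kt
      rw [← ENNReal.ofReal_one]
      refine ENNReal.ofReal_le_ofReal ?_
      rw [mem_ball, dist_eq_norm, not_lt] at hw
      exact Real.rpow_le_one_of_one_le_of_nonpos hw (by linarith)
  calc ∫⁻ w in closedBall (0 : ℂ) R, kt t p w
      ≤ ∫⁻ w in closedBall (0 : ℂ) R, ((ball p 1).indicator (kt t p) w + 1) := lintegral_mono fun w => h1 w
    _ = (∫⁻ w in closedBall (0 : ℂ) R, (ball p 1).indicator (kt t p) w) + volume (closedBall (0 : ℂ) R) := by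
        rw [lintegral_add_right _ measurable_const, lintegral_const, one_mul, Measure.restrict_apply_univ]
    _ ≤ (∫⁻ w, (ball p 1).indicator (kt t p) w) + volume (closedBall (0 : ℂ) R) := by
        refine add_le_add_left ?_ _
        exact lintegral_mono' Measure.restrict_le_self le_rfl
    _ = (∫⁻ w in ball p 1, kt t p w) + volume (closedBall (0 : ℂ) R) := by
        rw [lintegral_indicator measurableSet_ball]
    _ ≤ ENNReal.ofReal C + volume (closedBall (0 : ℂ) R) := by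
        refine add_le_add_left ?_ _
        have h3 := hk p 1 one_pos
        rwa [Real.one_rpow, mul_one] at h3
    _ = ENNReal.ofReal (C + volume.real (closedBall (0 : ℂ) R)) := by
        rw [ENNReal.ofReal_add hC measureReal_nonneg, ofReal_measureReal measure_closedBall_lt_top.ne]

theorem q_diff {w x v : ℂ} (hx : w ≠ x) (hv : w ≠ v) :
    ‖1 / (w - x) - 1 / (w - v)‖ ≤ 2 * ‖x - v‖ ^ (1 / 2 : ℝ) * (‖w - x‖ ^ (-(3 / 2) : ℝ) + ‖w - v‖ ^ (-(3 / 2) : ℝ)) := by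
  have hA : 0 < ‖w - x‖ := norm_pos_iff.2 (sub_ne_zero.2 hx)
  have hB : 0 < ‖w - v‖ := norm_pos_iff.2 (sub_ne_zero.2 hv)
  have h1 : ‖1 / (w - x) - 1 / (w - v)‖ = ‖x - v‖ / (‖w - x‖ * ‖w - v‖) := by
    rw [← norm_mul, ← norm_div]
    congr 1
    have hx' := sub_ne_zero.2 hx
    have hv' := sub_ne_zero.2 hv
    field_simp
    ring
  have h2 : ‖x - v‖ ≤ ‖w - x‖ + ‖w - v‖ := by
    have h3 : x - v = -(w - x) + (w - v) := by ring
    calc ‖x - v‖ = ‖-(w - x) + (w - v)‖ := by rw [← h3]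
      _ ≤ ‖-(w - x)‖ + ‖w - v‖ := norm_add_le _ _
      _ = _ := by rw [norm_neg]
  have key : ∀ A : ℝ, 0 < A → A ^ (-(3 / 2) : ℝ) = ((Real.sqrt A) ^ 3)⁻¹ := by
    intro A hA0
    rw [Real.rpow_neg hA0.le, Real.sqrt_eq_rpow, ← Real.rpow_natCast (A ^ (1 / 2 : ℝ)) 3, ← Real.rpow_mul hA0.le]
    norm_num
  rw [h1, key _ hA, key _ hB, ← Real.sqrt_eq_rpow]
  have hN : 0 ≤ ‖x - v‖ := norm_nonneg _
  obtain ⟨A, hAe⟩ : ∃ A, A = Real.sqrt ‖w - x‖ := ⟨_, rfl⟩
  obtain ⟨B, hBe⟩ : ∃ B, B = Real.sqrt ‖w - v‖ := ⟨_, rfl⟩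
  obtain ⟨N, hNe⟩ : ∃ N, N = Real.sqrt ‖x - v‖ := ⟨_, rfl⟩
  have hA2 : ‖w - x‖ = A ^ 2 := by rw [hAe, Real.sq_sqrt hA.le]
  have hB2 : ‖w - v‖ = B ^ 2 := by rw [hBe, Real.sq_sqrt hB.le]
  have hN2 : ‖x - v‖ = N ^ 2 := by rw [hNe, Real.sq_sqrt hN]
  have hA0 : 0 < A := by rw [hAe]; exact Real.sqrt_pos.2 hA
  have hB0 : 0 < B := by rw [hBe]; exact Real.sqrt_pos.2 hB
  have hN0 : 0 ≤ N := by rw [hNe]; exact Real.sqrt_nonneg _
  rw [← hAe, ← hBe, ← hNe]
  rw [hA2, hB2, hN2] at h2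
  rw [hA2, hB2, hN2]
  have hNAB : N ≤ A + B := by
    by_contra hcon
    nlinarith [mul_pos hA0 hB0]
  have h5 : N ^ 2 / (A ^ 2 * B ^ 2) ≤ N * ((A + B) / (A ^ 2 * B ^ 2)) := by
    rw [← mul_div_assoc]
    refine div_le_div_of_nonneg_right ?_ (by positivity)
    nlinarith
  have h6 : (A + B) / (A ^ 2 * B ^ 2) ≤ (A ^ 3)⁻¹ + (B ^ 3)⁻¹ := by
    have h7 : (A ^ 3)⁻¹ + (B ^ 3)⁻¹ = (A ^ 3 + B ^ 3) / (A ^ 3 * B ^ 3) := by
      field_simp
      ring
    rw [h7, div_le_div_iff₀ (by positivity) (by positivity)]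
    have h8 : (A + B) * (A * B) ≤ A ^ 3 + B ^ 3 := by nlinarith [mul_nonneg (add_pos hA0 hB0).le (sq_nonneg (A - B))]
    have h9 := mul_le_mul_of_nonneg_right h8 (show 0 ≤ A ^ 2 * B ^ 2 by positivity)
    nlinarith
  have h10 : 0 ≤ (A ^ 3)⁻¹ + (B ^ 3)⁻¹ := by positivity
  calc N ^ 2 / (A ^ 2 * B ^ 2) ≤ N * ((A + B) / (A ^ 2 * B ^ 2)) := h5
    _ ≤ N * ((A ^ 3)⁻¹ + (B ^ 3)⁻¹) := mul_le_mul_of_nonneg_left h6 hN0
    _ ≤ 2 * N * ((A ^ 3)⁻¹ + (B ^ 3)⁻¹) := by nlinarith [mul_nonneg hN0 h10]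

end Pool.Agent.H18.CP
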