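import Pool.Agent.H18.CP.Est

/-!
# [H18 CP Low] THEOREM CP: the derivatives are bounded near the critical value

PROOF. For `x ∈ J ∩ ball c0 1`: `‖x‖ ≤ ‖c0‖ + 1 ≤ R` (`KD.crR` for `c0`: `KD.cJ`, `KD.c0c`), so `‖Y x‖ ≤ C` (`KD.Yb`). Let `y0 = ‖Y v‖ > 0`, `v = gg c0`, `ε = π s^2 y0 / 8`, `r0` the minimum of the radii of `PK.Kv ε` and `PK.Yn (y0 / 4)`. `A = ‖(tD n x)⁻¹‖`. `est`: `π s^2 ‖Y x - (tD n x)⁻¹ Y (g^n x)‖ ≤ ε + A (C1 + ε)` (`PK.Kv` for `x`; `PK.Kp` or `PK.Kv` for `g^n x`), and the left side is at least `π s^2 (3 y0 / 4 - A (C + 2 y0))`. So `π s^2 y0 / 2 ≤ A (C1 + ε + π s^2 (C + 2 y0))`: this gives `A0`. (`n = 0` is allowed; `g^n x ∈ J` is in `hx`.)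
-/

set_option autoImplicit false

open Filter Topology Polynomial Metric Set MeasureTheory

namespace Pool.Agent.H18.CP

open Pool.Agent.H44.Fatou (rat rat_continuous)
open Pool.Agent.H80.AJ (Br KK one_le_KK KK_pos distort distort_lip deriv_ne univ_cover)
open Pool.Agent.H61.TT Pool.Agent.H57.CP Pool.Agent.H3.NC Pool.Agent.H18.UP
open Pool.Agent.H66.UP (KD)

variable {d : ℕ} {a b : Polynomial ℂ} {J Z : Set ℂ} {c0 : ℂ} {δ0 δ1 R C C1 s : ℝ} {q r K : ℂ → ℂ → ℂ} {Y : ℂ → ℂ}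

theorem low (h : RatD d a b) (H : KD a b J Z c0 δ1 R C q r K Y) (P : PK a b J c0 s C1 q K Y) (hs : 0 < s)
    (hsδ : 2 * s ≤ δ1) (hY : Y (gg a b c0) ≠ 0) : ∃ A0 r0 : ℝ, 0 < A0 ∧ 0 < r0 ∧ ∀ (x : ℂ) (n : ℕ),
    ‖x - gg a b c0‖ < r0 → (∀ j ≤ n, (gg a b)^[j] x ∈ J) →
    (∀ j < n, b.eval ((gg a b)^[j] x) ≠ 0) → (∀ j < n, dg a b ((gg a b)^[j] x) ≠ 0) →
    (∀ j < n, (gg a b)^[j] x ∉ ball c0 (2 * s)) →
    ((gg a b)^[n] x ∈ ball c0 1 ∨ ‖(gg a b)^[n] x - gg a b c0‖ < r0) → A0 ≤ ‖(tD a b n x)⁻¹‖ := by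
  obtain ⟨y0, hy0⟩ : ∃ y0 : ℝ, y0 = ‖Y (gg a b c0)‖ := ⟨_, rfl⟩
  have hy : 0 < y0 := by
    rw [hy0]
    exact norm_pos_iff.2 hY
  obtain ⟨S, hS⟩ : ∃ S : ℝ, S = Real.pi * s ^ 2 := ⟨_, rfl⟩
  have hS0 : 0 < S := by
    rw [hS]
    exact mul_pos Real.pi_pos (pow_pos hs 2)
  obtain ⟨ε, hε⟩ : ∃ ε : ℝ, ε = S * y0 / 8 := ⟨_, rfl⟩
  have hε0 : 0 < ε := by
    rw [hε]
    exact div_pos (mul_pos hS0 hy) (by norm_num)
  obtain ⟨r1, hr1, hv⟩ := P.Kv ε hε0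
  obtain ⟨r2, hr2, hyn⟩ := P.Yn (y0 / 4) (by linarith)
  have hC : 0 < C := lt_of_lt_of_le one_pos H.hC
  obtain ⟨M, hM⟩ : ∃ M : ℝ, M = C1 + ε + S * (C + 2 * y0) := ⟨_, rfl⟩
  have hM0 : 0 < M := by
    have h1 : 0 < S * (C + 2 * y0) := mul_pos hS0 (by linarith)
    have h2 := P.hC
    rw [hM]
    linarith
  refine ⟨S * y0 / 2 / M, min r1 r2, div_pos (div_pos (mul_pos hS0 hy) (by norm_num)) hM0,
    lt_min hr1 hr2, ?_⟩
  intro x n hxr hx hb hd ho hz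
  have hxJ : x ∈ J := hx 0 (Nat.zero_le n)
  have hzJ : (gg a b)^[n] x ∈ J := hx n le_rfl
  obtain ⟨z, hzd⟩ : ∃ z : ℂ, z = (gg a b)^[n] x := ⟨_, rfl⟩
  rw [← hzd] at hz hzJ
  obtain ⟨A, hA⟩ : ∃ A : ℝ, A = ‖(tD a b n x)⁻¹‖ := ⟨_, rfl⟩
  have hA0 : 0 ≤ A := by
    rw [hA]
    exact norm_nonneg _
  -- bounds at z
  have hKz : Pot a b (ball c0 s) (K z) ≤ ENNReal.ofReal (C1 + ε) := by
    rcases hz with hz | hz
    · refine (P.Kp z hzJ hz).trans (ENNReal.ofReal_le_ofReal (by linarith))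
    · refine (hv z hzJ (hz.trans_le (min_le_left _ _))).trans (ENNReal.ofReal_le_ofReal ?_)
      have := P.hC
      linarith
  have hYz : ‖Y z‖ ≤ C + 2 * y0 := by
    rcases hz with hz | hz
    · have h1 : ‖z‖ ≤ R := by
        refine le_trans ?_ (H.crR c0 H.cJ H.c0c)
        have h2 : ‖z - c0‖ < 1 := by
          rw [← dist_eq_norm]
          exact hz
        have h3 : ‖z‖ ≤ ‖z - c0‖ + ‖c0‖ := by
          have := norm_add_le (z - c0) c0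
          rwa [sub_add_cancel] at this
        linarith
      have := H.Yb z hzJ h1
      linarith
    · have h1 := hyn z hzJ (hz.trans_le (min_le_right _ _))
      have h2 : ‖Y z‖ ≤ ‖Y z - Y (gg a b c0)‖ + ‖Y (gg a b c0)‖ := by
        have := norm_add_le (Y z - Y (gg a b c0)) (Y (gg a b c0))
        rwa [sub_add_cancel] at this
      rw [← hy0] at h2
      linarith
  -- bounds at x
  have hKx := hv x hxJ (hxr.trans_le (min_le_left _ _))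
  have hYx : 3 * y0 / 4 ≤ ‖Y x‖ := by
    have h1 := hyn x hxJ (hxr.trans_le (min_le_right _ _))
    have h2 : ‖Y (gg a b c0)‖ ≤ ‖Y x - Y (gg a b c0)‖ + ‖Y x‖ := by
      have := norm_add_le (Y (gg a b c0) - Y x) (Y x)
      rw [sub_add_cancel, norm_sub_rev] at this
      exact this
    rw [← hy0] at h2
    linarith
  have h1 := est h H P hs hsδ hx hb hd ho
  rw [← hzd, ← hS] at h1
  have h2 : Pot a b (ball c0 s) (K x) + ‖(tD a b n x)⁻¹‖ₑ * Pot a b (ball c0 s) (K z) ≤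
      ENNReal.ofReal (ε + A * (C1 + ε)) := by
    have hC1 : 0 ≤ C1 + ε := by
      have := P.hC
      linarith
    rw [ENNReal.ofReal_add hε0.le (mul_nonneg hA0 hC1), ENNReal.ofReal_mul hA0]
    refine add_le_add hKx ?_
    rw [hA, ofReal_norm]
    exact mul_le_mul_right hKz _
  have h3 : S * ‖Y x - (tD a b n x)⁻¹ * Y z‖ ≤ ε + A * (C1 + ε) := by
    have hC1 : 0 ≤ C1 + ε := by
      have := P.hC
      linarith
    exact (ENNReal.ofReal_le_ofReal_iff (add_nonneg hε0.le (mul_nonneg hA0 hC1))).1 (h1.trans h2)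
  have h4 : 3 * y0 / 4 - A * (C + 2 * y0) ≤ ‖Y x - (tD a b n x)⁻¹ * Y z‖ := by
    have h5 : ‖Y x‖ - ‖(tD a b n x)⁻¹ * Y z‖ ≤ ‖Y x - (tD a b n x)⁻¹ * Y z‖ := norm_sub_norm_le _ _
    rw [norm_mul, ← hA] at h5
    have h6 : A * ‖Y z‖ ≤ A * (C + 2 * y0) := mul_le_mul_of_nonneg_left hYz hA0
    linarith
  rw [← hA, div_le_iff₀ hM0, hM]
  have h5 : S * (3 * y0 / 4 - A * (C + 2 * y0)) ≤ ε + A * (C1 + ε) :=
    (mul_le_mul_of_nonneg_left h4 hS0.le).trans h3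
  have h6 : 0 < S * y0 := mul_pos hS0 hy
  nlinarith [h5, h6, hε]

end Pool.Agent.H18.CP
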