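import Pool.Agent.H18.CP.Cov
import Pool.Agent.H18.CP.Cmp
import Pool.Agent.H83.UP.KP3

/-!
# [H18 CP PoK] THEOREM CP: the potentials of `‖w - p‖ ^ (-t)`, Julia set not the sphere

`pot_cov` (Cov) with `ρ = 16 s`, `D`, `n` from `Hole`, `Z = ZV a b (NJ J δ0)` (`z_meas`, `z_pre`, `z_bd`: bounded by `R0`; `D ⊆ ball c0 s ⊆ NJ ⊆ Z`: `z_ball`), `k = kt t p` (`kt_meas`), `cmp_kt` (Cmp) for the branches (`Br.inj`, `Br.diff`), `kt_ball` (Kin): `C = C_cmp * n * C_ball`, independent of `p`.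
-/

set_option autoImplicit false

open Filter Topology Polynomial Metric Set MeasureTheory

namespace Pool.Agent.H18.CP

open Pool.Agent.H44.Fatou (rat rat_continuous)
open Pool.Agent.H80.AJ (Br KK one_le_KK KK_pos distort distort_lip deriv_ne univ_cover)
open Pool.Agent.H61.TT Pool.Agent.H57.CP Pool.Agent.H3.NC Pool.Agent.H78.NS Pool.Agent.H31.NS Pool.Agent.H18.UP Pool.Agent.H66.UP
open Pool.Agent.H83.UP (qq LgP KQ z_meas z_bd z_pre z_ball)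

variable {d D : ℕ} {a b : Polynomial ℂ} {J : Set ℂ} {δ0 R0 : ℝ}

theorem pot_kt (hG : Geo d a b J δ0) (h : NS d D a b J δ0 R0) {c0 : ℂ} (hcJ : c0 ∈ J) {s : ℝ} (hs : 0 < s)
    (hs16 : 16 * s ≤ δ0) (hP : Disjoint (ball c0 (16 * s)) (PJ a b J)) (hH : Hole a b c0 s) {t : ℝ} (h0 : 0 < t)
    (h2 : t < 2) : ∃ C : ℝ, 0 ≤ C ∧ ∀ p : ℂ,
    ∑' i : ℕ, ∫⁻ w in (pre a b)^[i] (ball c0 s), kt t p w ≤ ENNReal.ofReal C := by
  obtain ⟨E, n, hE, hEm, hE0, hn⟩ := hH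
  obtain ⟨Cc, hCc, hcmp⟩ := cmp_kt hs (ρ := 16 * s) (by linarith) hE hEm hE0 h0 h2
  obtain ⟨Cb, hCb, hball⟩ := kt_ball h0 h2 R0
  refine ⟨Cc.toReal * (n * Cb), by positivity, fun p => ?_⟩
  have hsδ : s ≤ δ0 := by linarith
  have hNJ : ball c0 (16 * s) ⊆ NJ J δ0 := by
    intro w hw
    exact ⟨c0, hcJ, ball_subset_ball hs16 hw⟩
  have hEZ : E ⊆ ZV a b (NJ J δ0) := fun w hw => z_ball hcJ (ball_subset_ball hsδ (hE hw))
  have h1 := pot_cov hG hs (ρ := 16 * s) (by linarith) hNJ hP hE hEm hn (z_meas h) z_pre hEZ (kt_meas t p)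
    (fun i φ hφ => hcmp φ hφ.diff hφ.inj p)
  have h3 : ∫⁻ w in ZV a b (NJ J δ0), kt t p w ≤ ENNReal.ofReal Cb := by
    refine le_trans (lintegral_mono_set ?_) (hball p)
    intro w hw
    rw [mem_closedBall, dist_zero_right]
    exact z_bd h w hw
  refine h1.trans ?_
  calc Cc * (n * ∫⁻ w in ZV a b (NJ J δ0), kt t p w) ≤ Cc * (n * ENNReal.ofReal Cb) := by gcongr
    _ = ENNReal.ofReal (Cc.toReal * (n * Cb)) := by
      rw [ENNReal.ofReal_mul ENNReal.toReal_nonneg, ENNReal.ofReal_toReal hCc,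
        ENNReal.ofReal_mul (Nat.cast_nonneg n), ENNReal.ofReal_natCast]

end Pool.Agent.H18.CP
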