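import Pool.Agent.H18.CP.PoK
import Pool.Agent.H18.CP.KdE

/-!
# [H18 CP PotP] THEOREM CP: the potentials, Julia set not the sphere

`pk_p`: `B = ball c0 s`. `‖qq p w‖ₑ ≤ kt 1 p w` (all `w`): `Pot (qq p) ≤ C` for ALL `p` (`pot_kt`, `t = 1`).
`Pot (hh j) ≤ C'` (`j ≤ D`): formula, `pot_sum`, `pot_mul`, `pot_pf` (`qq` is measurable).
`Kp`: `K x = qq x + ∑_j hh j * V j x`, `‖V j x‖ ≤ C0` (`VP.bd`).
`Kv`: `v = gg c0 ∈ J`; by `val0` `K v = 0` a.e. on `Z`, so `Pot (K x) = Pot (K x - K v)` (`pot_congr`: all `pre^i B ⊆ Z`), `K x - K v = (qq x - qq v) + ∑_j hh j (V j x - V j v)`; `Pot (qq x - qq v) ≤ 2 ‖x - v‖^(1/2) 2 C_(3/2)` (`q_diff`, `pot_kt` with `t = 3/2`; `w = x`, `w = v` are null sets), `Pot (hh j (V j x - V j v)) = ‖V j x - V j v‖ₑ Pot (hh j)`, `V j` is continuous at `v` on `J` (`VP.tri` with `y = v` and a fixed `z ∈ J`, `z ≠ v`, which exists as `v` is not isolated in `J`: `US0.per` or `Geo.ring`; if `J = {v}` nothing is to prove).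
`Yn`: the same with `KD.Yt`. `qm`: `qq x` is measurable.
-/

set_option autoImplicit false

open Filter Topology Polynomial Metric Set MeasureTheory

namespace Pool.Agent.H18.CP

open Pool.Agent.H44.Fatou (rat rat_continuous)
open Pool.Agent.H80.AJ (Br KK one_le_KK KK_pos distort distort_lip deriv_ne univ_cover)
open Pool.Agent.H61.TT Pool.Agent.H57.CP Pool.Agent.H3.NC Pool.Agent.H78.NS Pool.Agent.H31.NS Pool.Agent.H18.UP Pool.Agent.H66.UP
open Pool.Agent.H83.UP (qq LgP KQ z_meas z_bd z_pre z_ball)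

variable {d D : ℕ} {a b : Polynomial ℂ} {J : Set ℂ} {δ0 R0 : ℝ}

/-- continuity from a three point estimate -/
private theorem pp_cont {f : ℂ → ℂ} {v z : ℂ} (hz : z ≠ v) {C : ℝ} (hC : 0 ≤ C)
    (h3 : ∀ x ∈ J, x ≠ v → ‖x - v‖ ≤ ‖z - v‖ → ‖f x - f v - (x - v) / (z - v) * (f z - f v)‖ ≤
      C * ‖x - v‖ * (1 + |Real.log (‖z - v‖ / ‖x - v‖)|)) :
    ∀ ε : ℝ, 0 < ε → ∃ r : ℝ, 0 < r ∧ ∀ x ∈ J, ‖x - v‖ < r → ‖f x - f v‖ ≤ ε := by
  intro ε hε
  have hδ : 0 < ‖z - v‖ := norm_pos_iff.2 (sub_ne_zero.2 hz)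
  obtain ⟨δ, hδe⟩ : ∃ δ, δ = ‖z - v‖ := ⟨_, rfl⟩
  rw [← hδe] at hδ
  obtain ⟨g, hg⟩ : ∃ g : ℝ → ℝ, g = fun t => t / δ * ‖f z - f v‖ + C * (t + |t * Real.log δ - t * Real.log t|) := ⟨_, rfl⟩
  have hgc : Continuous g := by
    rw [hg]
    have h1 := Real.continuous_mul_log
    fun_prop
  have hg0 : g 0 = 0 := by rw [hg]; simp
  have h4 := (Metric.continuous_iff.1 hgc) 0 ε hε
  obtain ⟨r, hr, h5⟩ := h4
  refine ⟨min r δ, lt_min hr hδ, fun x hx hxr => ?_⟩
  by_cases hxv : x = v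
  · rw [hxv, sub_self, norm_zero]
    exact hε.le
  have ht : 0 < ‖x - v‖ := norm_pos_iff.2 (sub_ne_zero.2 hxv)
  have h6 := h3 x hx hxv (by rw [← hδe]; exact (hxr.trans_le (min_le_right _ _)).le)
  rw [← hδe] at h6
  have h7 := h5 ‖x - v‖ (by
    rw [dist_zero_right, norm_norm]
    exact hxr.trans_le (min_le_left _ _))
  rw [hg0, dist_zero_right, Real.norm_eq_abs] at h7
  have h8 := (le_abs_self _).trans h7.le
  have h9 : ‖f x - f v‖ ≤ ‖(x - v) / (z - v) * (f z - f v)‖ + ‖f x - f v - (x - v) / (z - v) * (f z - f v)‖ := by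
    have h10 := norm_add_le ((x - v) / (z - v) * (f z - f v)) (f x - f v - (x - v) / (z - v) * (f z - f v))
    rwa [add_sub_cancel] at h10
  have h11 : ‖(x - v) / (z - v) * (f z - f v)‖ = ‖x - v‖ / δ * ‖f z - f v‖ := by
    rw [norm_mul, norm_div, ← hδe]
  have h12 : C * ‖x - v‖ * (1 + |Real.log (δ / ‖x - v‖)|) = C * (‖x - v‖ + |‖x - v‖ * Real.log δ - ‖x - v‖ * Real.log ‖x - v‖|) := by
    rw [← mul_sub, abs_mul, abs_of_pos ht, Real.log_div hδ.ne' ht.ne']
    ring
  rw [h12] at h6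
  rw [hg] at h8
  simp only at h8
  rw [h11] at h9
  linarith

private theorem pp_qm (x : ℂ) : Measurable (qq x) := by
  unfold qq
  exact measurable_const.div (measurable_id.sub_const x)

private theorem pp_sub {c0 : ℂ} (hcJ : c0 ∈ J) {s : ℝ} (hs : s ≤ δ0) (i : ℕ) :
    (pre a b)^[i] (ball c0 s) ⊆ ZV a b (NJ J δ0) := by
  induction i with
  | zero => exact (ball_subset_ball hs).trans (z_ball hcJ)
  | succ i ih =>
    rw [Function.iterate_succ_apply']
    intro w hw
    exact z_pre ⟨hw.1, ih hw.2⟩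

private theorem pp_qk (p w : ℂ) : ‖qq p w‖ₑ = kt 1 p w := by
  unfold qq kt
  rw [← ofReal_norm, norm_div, norm_one, one_div, Real.rpow_neg_one]

theorem pk_p (hG : Geo d a b J δ0) (h : US0 d D a b J δ0 R0) {C0 : ℝ} {V : ℕ → ℂ → ℂ} (hV : VP D a b J C0 V) {c0 : ℂ}
    (hcJ : c0 ∈ J) (hw : (ww a b).eval c0 = 0) {s : ℝ} (hs : 0 < s) (hs16 : 16 * s ≤ δ0)
    (hP : Disjoint (ball c0 (16 * s)) (PJ a b J)) (hH : Hole a b c0 s) {hh : ℕ → ℂ → ℂ} {F : Finset ℂ}
    {co : ℕ → ℂ → ℂ} {R C : ℝ} {r : ℂ → ℂ → ℂ} {Y : ℂ → ℂ}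
    (H : KD a b J (ZV a b (NJ J δ0)) c0 δ0 R C qq r (KQ D hh V) Y) (hR : ∀ x ∈ J, ‖x‖ ≤ R)
    (hf : ∀ j w, hh j w = ∑ p ∈ F, co j p * (b.eval p ^ 2 * (dg a b p * pf a b (qq p) w - qq (gg a b p) w))) :
    ∃ C1 : ℝ, PK a b J c0 s C1 qq (KQ D hh V) Y := by
  obtain ⟨Cq, hCq, hq0⟩ := pot_kt hG h.ns hcJ hs hs16 hP hH (t := 1) one_pos one_lt_two
  obtain ⟨Ct, hCt, ht0⟩ := pot_kt hG h.ns hcJ hs hs16 hP hH (t := 3 / 2) (by norm_num) (by norm_num)
  have hrt := h.ns.rt
  have hsδ : s ≤ δ0 := by linarith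
  have hZi : ∀ i : ℕ, (pre a b)^[i] (ball c0 s) ⊆ ZV a b (NJ J δ0) := pp_sub hcJ hsδ
  have hBm : MeasurableSet (ball c0 s) := measurableSet_ball
  have hq : ∀ p : ℂ, Pot a b (ball c0 s) (qq p) ≤ ENNReal.ofReal Cq := by
    intro p
    refine le_trans (le_of_eq ?_) (hq0 p)
    unfold Pot
    refine tsum_congr fun i => lintegral_congr fun w => pp_qk p w
  have hqs : ∀ p : ℂ, AEStronglyMeasurable (qq p) (volume.restrict (ZV a b (NJ J δ0))) := fun p =>
    (pp_qm p).aestronglyMeasurable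
  have hps : ∀ p : ℂ, AEStronglyMeasurable (pf a b (qq p)) (volume.restrict (ZV a b (NJ J δ0))) := fun p =>
    (Pool.Agent.H83.UP.pfq_int hrt (z_meas h.ns) (z_bd h.ns) z_pre p).1
  have hpp : ∀ p : ℂ, Pot a b (ball c0 s) (pf a b (qq p)) ≤ ENNReal.ofReal Cq := fun p =>
    (pot_pf hrt hBm (pp_qm p)).trans (hq p)
  have hfe : ∀ j, hh j = fun w => ∑ p ∈ F, co j p * (b.eval p ^ 2 * (dg a b p * pf a b (qq p) w + (-1) * qq (gg a b p) w)) := by
    intro j
    funext w
    rw [hf]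
    refine Finset.sum_congr rfl fun p _ => ?_
    ring
  have hterm : ∀ j p, AEStronglyMeasurable (fun w => co j p * (b.eval p ^ 2 * (dg a b p * pf a b (qq p) w + (-1) * qq (gg a b p) w)))
      (volume.restrict (ZV a b (NJ J δ0))) := by
    intro j p
    exact ((((hps p).const_mul _).add ((hqs _).const_mul _)).const_mul _).const_mul _
  have hhs : ∀ j, AEStronglyMeasurable (hh j) (volume.restrict (ZV a b (NJ J δ0))) := by
    intro j
    rw [hfe j]
    exact Finset.aestronglyMeasurable_fun_sum _ fun p _ => hterm j p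
  have hhP : ∀ j, Pot a b (ball c0 s) (hh j) ≠ ⊤ := by
    intro j
    rw [hfe j]
    refine ne_top_of_le_ne_top ?_ (pot_sum F hZi fun p _ => hterm j p)
    refine ENNReal.sum_ne_top.2 fun p _ => ?_
    rw [pot_mul, pot_mul]
    refine ENNReal.mul_ne_top enorm_ne_top (ENNReal.mul_ne_top enorm_ne_top ?_)
    refine ne_top_of_le_ne_top ?_ (pot_add' hZi ((hqs _).const_mul _))
    rw [pot_mul, pot_mul]
    refine ENNReal.add_ne_top.2 ⟨ENNReal.mul_ne_top enorm_ne_top ?_, ENNReal.mul_ne_top enorm_ne_top ?_⟩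
    · exact ne_top_of_le_ne_top ENNReal.ofReal_ne_top (hpp p)
    · exact ne_top_of_le_ne_top ENNReal.ofReal_ne_top (hq _)
  have hsumP : ∀ (u : ℂ → ℂ) (β : ℕ → ℂ),
      Pot a b (ball c0 s) (fun w => u w + ∑ j ∈ Finset.range (D + 1), hh j w * β j) ≤
        Pot a b (ball c0 s) u + ∑ j ∈ Finset.range (D + 1), ‖β j‖ₑ * Pot a b (ball c0 s) (hh j) := by
    intro u β
    have h1 : ∀ j ∈ Finset.range (D + 1), AEStronglyMeasurable (fun w => hh j w * β j) (volume.restrict (ZV a b (NJ J δ0))) :=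
      fun j _ => (hhs j).mul_const _
    refine (pot_add' hZi (Finset.aestronglyMeasurable_fun_sum _ h1)).trans ?_
    gcongr
    refine (pot_sum _ hZi h1).trans ?_
    refine Finset.sum_le_sum fun j _ => ?_
    have h2 : (fun w => hh j w * β j) = fun w => β j * hh j w := by
      funext w
      ring
    rw [h2, pot_mul]
  have hJv : gg a b c0 ∈ J := h.ns.Ji c0 hcJ
  have hC0 : 0 ≤ C0 := zero_le_one.trans hV.hC
  obtain ⟨M, hM⟩ : ∃ M : ENNReal, M = ENNReal.ofReal Cq + ∑ j ∈ Finset.range (D + 1), ENNReal.ofReal C0 * Pot a b (ball c0 s) (hh j) := ⟨_, rfl⟩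
  have hMt : M ≠ ⊤ := by
    rw [hM]
    exact ENNReal.add_ne_top.2 ⟨ENNReal.ofReal_ne_top, ENNReal.sum_ne_top.2 fun j _ =>
      ENNReal.mul_ne_top ENNReal.ofReal_ne_top (hhP j)⟩
  refine ⟨M.toReal, ENNReal.toReal_nonneg, fun x _ => pp_qm x, fun x _ => ne_top_of_le_ne_top ENNReal.ofReal_ne_top (hq x), ?_, ?_, ?_⟩
  · -- Kp
    intro x hx _
    rw [ENNReal.ofReal_toReal hMt, hM]
    refine (hsumP (qq x) (fun j => V j x)).trans ?_
    refine add_le_add (hq x) (Finset.sum_le_sum fun j hj => ?_)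
    gcongr
    rw [← ofReal_norm]
    exact ENNReal.ofReal_le_ofReal (hV.bd j (by rw [Finset.mem_range] at hj; omega) x hx)
  · -- Kv
    intro ε hε
    have hKv := H.val0 c0 hcJ H.c0c
    have hcongr : ∀ x : ℂ, Pot a b (ball c0 s) (KQ D hh V x) =
        Pot a b (ball c0 s) (fun w => (qq x w - qq (gg a b c0) w) + ∑ j ∈ Finset.range (D + 1), hh j w * (V j x - V j (gg a b c0))) := by
      intro x
      refine pot_congr hBm ?_
      filter_upwards [hKv] with w hw1 i hi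
      have h1 := hw1 (hZi i hi)
      have h2 : KQ D hh V x w = KQ D hh V x w - KQ D hh V (gg a b c0) w := by rw [h1, sub_zero]
      rw [h2]
      unfold KQ
      rw [add_sub_add_comm, ← Finset.sum_sub_distrib]
      congr 1
      refine Finset.sum_congr rfl fun j _ => ?_
      ring
    by_cases hz : ∃ z ∈ J, z ≠ gg a b c0
    · obtain ⟨z, hzJ, hzv⟩ := hz
      -- the sum part
      obtain ⟨P, hPe⟩ : ∃ P : ENNReal, P = ∑ j ∈ Finset.range (D + 1), Pot a b (ball c0 s) (hh j) := ⟨_, rfl⟩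
      have hPt : P ≠ ⊤ := by
        rw [hPe]
        exact ENNReal.sum_ne_top.2 fun j _ => hhP j
      have hη : 0 < ε / (2 * (P.toReal + 1)) := by
        have := ENNReal.toReal_nonneg (a := P)
        positivity
      have hVc : ∀ j ∈ Finset.range (D + 1), ∃ r : ℝ, 0 < r ∧ ∀ x ∈ J, ‖x - gg a b c0‖ < r →
          ‖V j x - V j (gg a b c0)‖ ≤ ε / (2 * (P.toReal + 1)) := by
        intro j hj
        have hj' : j ≤ D := by rw [Finset.mem_range] at hj; omega
        exact pp_cont hzv hC0 (fun x hx hxv _ => hV.tri j hj' x hx _ hJv z hzJ hxv hzv) _ hη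
      choose! rj hrj0 hrj using hVc
      have hr1 : ∃ r1 : ℝ, 0 < r1 ∧ ∀ j ∈ Finset.range (D + 1), r1 ≤ rj j := by
        refine ⟨(Finset.range (D + 1)).inf' ⟨0, by simp⟩ rj, ?_, fun j hj => Finset.inf'_le _ hj⟩
        rw [Finset.lt_inf'_iff]
        exact hrj0
      obtain ⟨r1, hr10, hr1⟩ := hr1
      -- the first part
      have hr2 : ∃ r2 : ℝ, 0 < r2 ∧ ∀ u : ℝ, 0 ≤ u → u < r2 → 4 * Ct * u ^ (1 / 2 : ℝ) ≤ ε / 2 := by
        have hc : Continuous (fun u : ℝ => 4 * Ct * u ^ (1 / 2 : ℝ)) :=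
          continuous_const.mul (Real.continuous_rpow_const (by norm_num))
        obtain ⟨r2, hr2, h5⟩ := (Metric.continuous_iff.1 hc) 0 (ε / 2) (by positivity)
        refine ⟨r2, hr2, fun u hu0 hu => ?_⟩
        have h6 := h5 u (by rw [dist_zero_right, Real.norm_eq_abs, abs_of_nonneg hu0]; exact hu)
        rw [Real.zero_rpow (by norm_num), mul_zero, dist_zero_right, Real.norm_eq_abs] at h6
        exact (le_abs_self _).trans h6.le
      obtain ⟨r2, hr20, hr2⟩ := hr2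
      refine ⟨min r1 r2, lt_min hr10 hr20, fun x hx hxr => ?_⟩
      rw [hcongr x]
      refine (hsumP _ _).trans ?_
      have hA : Pot a b (ball c0 s) (fun w => qq x w - qq (gg a b c0) w) ≤ ENNReal.ofReal (ε / 2) := by
        have hae : ∀ᵐ w : ℂ, ‖qq x w - qq (gg a b c0) w‖ₑ ≤
            ENNReal.ofReal (2 * ‖x - gg a b c0‖ ^ (1 / 2 : ℝ)) * (kt (3 / 2) x w + kt (3 / 2) (gg a b c0) w) := by
          have e1 : ∀ᵐ w : ℂ, w ≠ x := by
            rw [ae_iff]
            simp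
          have e2 : ∀ᵐ w : ℂ, w ≠ gg a b c0 := by
            rw [ae_iff]
            simp
          filter_upwards [e1, e2] with w hw1 hw2
          have h1 := q_diff hw1 hw2
          unfold kt
          rw [← ENNReal.ofReal_add (by positivity) (by positivity), ← ENNReal.ofReal_mul (by positivity),
            ← ofReal_norm]
          exact ENNReal.ofReal_le_ofReal h1
        calc Pot a b (ball c0 s) (fun w => qq x w - qq (gg a b c0) w)
            ≤ ∑' i : ℕ, ENNReal.ofReal (2 * ‖x - gg a b c0‖ ^ (1 / 2 : ℝ)) *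
                ((∫⁻ w in (pre a b)^[i] (ball c0 s), kt (3 / 2) x w) + ∫⁻ w in (pre a b)^[i] (ball c0 s), kt (3 / 2) (gg a b c0) w) := by
              unfold Pot
              refine ENNReal.tsum_le_tsum fun i => ?_
              rw [← lintegral_add_left (kt_meas _ _), ← lintegral_const_mul' _ _ ENNReal.ofReal_ne_top]
              exact lintegral_mono_ae (ae_restrict_of_ae hae)
          _ = ENNReal.ofReal (2 * ‖x - gg a b c0‖ ^ (1 / 2 : ℝ)) *
                ((∑' i : ℕ, ∫⁻ w in (pre a b)^[i] (ball c0 s), kt (3 / 2) x w) +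
                  ∑' i : ℕ, ∫⁻ w in (pre a b)^[i] (ball c0 s), kt (3 / 2) (gg a b c0) w) := by
              rw [ENNReal.tsum_mul_left, ENNReal.tsum_add]
          _ ≤ ENNReal.ofReal (2 * ‖x - gg a b c0‖ ^ (1 / 2 : ℝ)) * (ENNReal.ofReal Ct + ENNReal.ofReal Ct) := by
              gcongr
              · exact ht0 x
              · exact ht0 _
          _ = ENNReal.ofReal (4 * Ct * ‖x - gg a b c0‖ ^ (1 / 2 : ℝ)) := by
              rw [← ENNReal.ofReal_add hCt hCt, ← ENNReal.ofReal_mul (by positivity)]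
              congr 1
              ring
          _ ≤ ENNReal.ofReal (ε / 2) :=
              ENNReal.ofReal_le_ofReal (hr2 _ (norm_nonneg _) (hxr.trans_le (min_le_right _ _)))
      have hB : ∑ j ∈ Finset.range (D + 1), ‖V j x - V j (gg a b c0)‖ₑ * Pot a b (ball c0 s) (hh j) ≤ ENNReal.ofReal (ε / 2) := by
        calc ∑ j ∈ Finset.range (D + 1), ‖V j x - V j (gg a b c0)‖ₑ * Pot a b (ball c0 s) (hh j)
            ≤ ∑ j ∈ Finset.range (D + 1), ENNReal.ofReal (ε / (2 * (P.toReal + 1))) * Pot a b (ball c0 s) (hh j) := by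
              refine Finset.sum_le_sum fun j hj => ?_
              gcongr
              rw [← ofReal_norm]
              exact ENNReal.ofReal_le_ofReal (hrj j hj x hx (hxr.trans_le ((min_le_left _ _).trans (hr1 j hj))))
          _ = ENNReal.ofReal (ε / (2 * (P.toReal + 1))) * ENNReal.ofReal P.toReal := by
              rw [← Finset.mul_sum, ← hPe, ENNReal.ofReal_toReal hPt]
          _ = ENNReal.ofReal (ε / (2 * (P.toReal + 1)) * P.toReal) := by rw [ENNReal.ofReal_mul hη.le]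
          _ ≤ ENNReal.ofReal (ε / 2) := by
              refine ENNReal.ofReal_le_ofReal ?_
              have h1 := ENNReal.toReal_nonneg (a := P)
              rw [div_mul_eq_mul_div, div_le_div_iff₀ (by positivity) (by positivity)]
              nlinarith
      calc _ ≤ ENNReal.ofReal (ε / 2) + ENNReal.ofReal (ε / 2) := add_le_add hA hB
        _ = ENNReal.ofReal ε := by
            rw [← ENNReal.ofReal_add (by positivity) (by positivity), add_halves]
    · push Not at hz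
      refine ⟨1, one_pos, fun x hx _ => ?_⟩
      rw [hcongr x, hz x hx]
      have h1 : (fun w => (qq (gg a b c0) w - qq (gg a b c0) w) + ∑ j ∈ Finset.range (D + 1), hh j w * (V j (gg a b c0) - V j (gg a b c0))) =
          fun _ => (0 : ℂ) := by
        funext w
        simp
      rw [h1]
      unfold Pot
      simp
  · -- Yn
    by_cases hz : ∃ z ∈ J, z ≠ gg a b c0
    · obtain ⟨z, hzJ, hzv⟩ := hz
      have hC1 : 0 ≤ C := zero_le_one.trans H.hC
      refine pp_cont (J := J) hzv hC1 fun x hx hxv hle => ?_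
      refine (H.Yt x hx _ hJv z hzJ (hR x hx) (hR _ hJv) (hR z hzJ) hxv hle).trans ?_
      gcongr
      exact le_abs_self _
    · push Not at hz
      intro ε hε
      refine ⟨1, one_pos, fun x hx _ => ?_⟩
      rw [hz x hx, sub_self, norm_zero]
      exact hε.le

end Pool.Agent.H18.CP
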